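import Pool.Agent.K1H50.ST.Ind

/-!
A 6-connected graph contains a spanning minimally rigid graph, with an edge to spare.
-/

set_option autoImplicit false
set_option linter.unusedSectionVars false

namespace Pool.Agent.K1H50.ST

open Set

variable {V : Type} [Fintype V] [DecidableEq V]

/-- `K`-connected: at least `K + 1` vertices and connected after deleting fewer than `K`. -/
def KConn (K : ℕ) (G : SimpleGraph V) : Prop :=
  K + 1 ≤ Fintype.card V ∧ ∀ X : Finset V, X.card < K → (G.induce ((X : Set V)ᶜ)).Connected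

theorem KConn.cross {K : ℕ} {G : SimpleGraph V} (h : KConn K G) {X A : Finset V} (hX : X.card < K)
    {a b : V} (haX : a ∉ X) (hbX : b ∉ X) (ha : a ∈ A) (hb : b ∉ A) :
    ∃ x y, x ∉ X ∧ y ∉ X ∧ x ∈ A ∧ y ∉ A ∧ G.Adj x y := by
  have h1 := h.2 X hX
  obtain ⟨p⟩ := h1.preconnected ⟨a, by simpa using haX⟩ ⟨b, by simpa using hbX⟩
  obtain ⟨d, -, hd1, hd2⟩ := p.exists_boundary_dart {x | x.1 ∈ A} ha hb
  refine ⟨d.fst.1, d.snd.1, fun hx => d.fst.2 hx, fun hx => d.snd.2 hx, hd1, hd2, ?_⟩
  exact d.adj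

theorem KConn.deg {K : ℕ} {G : SimpleGraph V} (h : KConn K G) (v : V) :
    K ≤ (nbr G.edgeSet v).card := by
  classical
  by_contra hlt
  push Not at hlt
  have h1 : (insert v (nbr G.edgeSet v)).card < Fintype.card V := by
    have := Finset.card_insert_le v (nbr G.edgeSet v)
    have := h.1
    omega
  obtain ⟨y, hy⟩ : ∃ y, y ∉ insert v (nbr G.edgeSet v) := by
    by_contra hcon
    push Not at hcon
    have : insert v (nbr G.edgeSet v) = Finset.univ := Finset.eq_univ_iff_forall.2 hcon
    rw [this, Finset.card_univ] at h1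
    exact lt_irrefl _ h1
  rw [Finset.mem_insert, not_or] at hy
  have hv : v ∉ nbr G.edgeSet v := by
    intro h2
    rw [mem_nbr, SimpleGraph.mem_edgeSet] at h2
    exact h2.ne rfl
  obtain ⟨a, b, ha, hb, haA, hbA, hab⟩ := h.cross hlt hv hy.2 (Finset.mem_singleton_self v)
    (by rw [Finset.mem_singleton]; exact hy.1)
  rw [Finset.mem_singleton] at haA
  subst haA
  exact hb (mem_nbr.2 hab)

theorem spanning {G : SimpleGraph V} (h : KConn 6 G) :
    ∃ F : Set (Sym2 V), F ⊆ G.edgeSet ∧ Laman Finset.univ F := by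
  classical
  have hn := h.1
  have huniv : (Finset.univ : Finset V).card = Fintype.card V := Finset.card_univ
  have hGnl : ∀ c, s(c, c) ∉ G.edgeSet := fun c hc => (SimpleGraph.mem_edgeSet G |>.1 hc).ne rfl
  -- a largest sparse subset
  obtain ⟨F, hFmem, hFmax⟩ := Finset.exists_max_image
    ((Finset.univ : Finset (Set (Sym2 V))).filter fun F => F ⊆ G.edgeSet ∧ Sparse F) Set.ncard
    ⟨∅, by
      rw [Finset.mem_filter]
      refine ⟨Finset.mem_univ _, Set.empty_subset _, ?_⟩
      intro S hS
      have : ins (∅ : Set (Sym2 V)) S = ∅ := by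
        rw [Set.eq_empty_iff_forall_notMem]; rintro e ⟨he, -⟩; exact he
      rw [this, Set.ncard_empty]; omega⟩
  rw [Finset.mem_filter] at hFmem
  obtain ⟨-, hFE, hFs⟩ := hFmem
  have hFnl : ∀ c, s(c, c) ∉ F := fun c hc => hGnl c (hFE hc)
  -- every edge lies in a tight set
  have hcov : ∀ x y, G.Adj x y → ∃ X, TightOn F X ∧ x ∈ X ∧ y ∈ X := by
    intro x y hxy
    by_cases he : s(x, y) ∈ F
    · refine ⟨{x, y}, ?_, by simp, by simp⟩
      have hc : ({x, y} : Finset V).card = 2 := Finset.card_pair hxy.ne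
      refine ⟨by omega, ?_⟩
      have h5 := hFs {x, y} (by omega)
      have h6 : ({s(x, y)} : Set (Sym2 V)) ⊆ ins F {x, y} := by
        intro e he'
        rw [Set.mem_singleton_iff] at he'
        subst he'
        refine ⟨he, fun t ht => ?_⟩
        rw [Sym2.mem_iff] at ht
        rcases ht with rfl | rfl <;> simp
      have h7 := Set.ncard_le_ncard h6 (Set.toFinite _)
      rw [Set.ncard_singleton] at h7
      omega
    · by_contra hcon
      push Not at hcon
      have h1 : Sparse (insert s(x, y) F) := sparse_insert hFs fun S hx hy hT => hcon S hT hx hy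
      have h2 := hFmax (insert s(x, y) F) (by
        rw [Finset.mem_filter]
        exact ⟨Finset.mem_univ _, Set.insert_subset hxy hFE, h1⟩)
      rw [Set.ncard_insert_of_notMem he (Set.toFinite _)] at h2
      omega
  -- maximal tight sets
  set M : Finset (Finset V) := Finset.univ.filter fun X =>
    TightOn F X ∧ ∀ Y, TightOn F Y → X ⊆ Y → Y = X with hM
  have hMmem : ∀ X, X ∈ M ↔ TightOn F X ∧ ∀ Y, TightOn F Y → X ⊆ Y → Y = X := by
    intro X; rw [hM, Finset.mem_filter]; simp
  have hM1 : ∀ X, TightOn F X → ∃ Y ∈ M, X ⊆ Y := by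
    intro X hX
    obtain ⟨Y, hY, hYmax⟩ := Finset.exists_max_image
      ((Finset.univ : Finset (Finset V)).filter fun Y => TightOn F Y ∧ X ⊆ Y) Finset.card
      ⟨X, by rw [Finset.mem_filter]; exact ⟨Finset.mem_univ _, hX, Finset.Subset.refl _⟩⟩
    rw [Finset.mem_filter] at hY
    refine ⟨Y, (hMmem Y).2 ⟨hY.2.1, fun Z hZ hYZ => ?_⟩, hY.2.2⟩
    symm
    apply Finset.eq_of_subset_of_card_le hYZ
    apply hYmax
    rw [Finset.mem_filter]
    exact ⟨Finset.mem_univ _, hZ, Finset.Subset.trans hY.2.2 hYZ⟩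
  have hM2 : ∀ X ∈ M, ∀ Y ∈ M, X ≠ Y → (X ∩ Y).card ≤ 1 := by
    intro X hX Y hY hne
    by_contra hcon
    have h1 := ((hMmem X).1 hX)
    have h2 := ((hMmem Y).1 hY)
    have h3 := tight_union hFs h1.1 h2.1 (by omega)
    have h4 := h1.2 _ h3 Finset.subset_union_left
    have h5 := h2.2 _ h3 Finset.subset_union_right
    exact hne (h4.symm.trans h5)
  have hcovM : ∀ x y, G.Adj x y → ∃ X ∈ M, x ∈ X ∧ y ∈ X := by
    intro x y hxy
    obtain ⟨X, hX, hx, hy⟩ := hcov x y hxy
    obtain ⟨Y, hY, hXY⟩ := hM1 X hX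
    exact ⟨Y, hY, hXY hx, hXY hy⟩
  -- counting the edges of `F`
  have hcount : ∑ X ∈ M, (ins F X).ncard ≤ F.ncard := by
    have h1 : ∀ X ∈ M, (ins F X).ncard = ((ins F X).toFinite.toFinset).card :=
      fun X _ => Set.ncard_eq_toFinset_card _ _
    rw [Finset.sum_congr rfl h1, ← Finset.card_biUnion, Set.ncard_eq_toFinset_card F F.toFinite]
    · apply Finset.card_le_card
      intro e he
      rw [Finset.mem_biUnion] at he
      obtain ⟨X, -, he⟩ := he
      rw [Set.Finite.mem_toFinset] at he ⊢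
      exact he.1
    · intro X hX Y hY hne
      change Disjoint (ins F X).toFinite.toFinset (ins F Y).toFinite.toFinset
      rw [Set.Finite.disjoint_toFinset]
      exact ins_disjoint hFnl (hM2 X hX Y hY hne)
  have hFn := hFs Finset.univ (by rw [huniv]; omega)
  have hinsuniv : ins F Finset.univ = F := by
    ext e; exact ⟨fun he => he.1, fun he => ⟨he, fun _ _ => Finset.mem_univ _⟩⟩
  rw [hinsuniv, huniv] at hFn
  by_cases htop : (Finset.univ : Finset V) ∈ M
  · refine ⟨F, hFE, ⟨by rw [huniv]; omega, hFs, hFnl, fun _ _ _ _ => Finset.mem_univ _, ?_⟩⟩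
    have := ((hMmem _).1 htop).1.2
    rwa [hinsuniv] at this
  exfalso
  -- boundary and interior
  set B : Finset V → Finset V := fun X => X.filter fun v => ∃ Y ∈ M, Y ≠ X ∧ v ∈ Y with hB
  have hBmem : ∀ X v, v ∈ B X ↔ v ∈ X ∧ ∃ Y ∈ M, Y ≠ X ∧ v ∈ Y := by
    intro X v; rw [hB, Finset.mem_filter]
  set W : Finset V → V → ℕ := fun X v => if (X \ B X).Nonempty then (if v ∈ B X then 9 else 12)
    else (if 6 ≤ X.card then 9 else max 3 (2 * (X.card - 1))) with hW
  have hBcard : ∀ X ∈ M, (X \ B X).Nonempty → 6 ≤ (B X).card := by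
    intro X hX hne
    by_contra hlt
    push Not at hlt
    obtain ⟨a, ha⟩ := hne
    rw [Finset.mem_sdiff] at ha
    obtain ⟨b, hb⟩ : ∃ b, b ∉ X := by
      by_contra hcon
      push Not at hcon
      exact htop ((Finset.eq_univ_iff_forall.2 hcon) ▸ hX)
    obtain ⟨x, y, hx, hy, hxA, hyA, hxy⟩ := h.cross (A := X) hlt ha.2
      (fun h' => hb ((hBmem X b).1 h').1) ha.1 hb
    obtain ⟨Y, hY, hxY, hyY⟩ := hcovM x y hxy
    exact hx ((hBmem X x).2 ⟨hxA, Y, hY, fun h' => hyA (h' ▸ hyY), hxY⟩)
  have hupper : ∀ X ∈ M, ∑ v ∈ X, W X v + 18 ≤ 12 * X.card := by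
    intro X hX
    have h2 := ((hMmem X).1 hX).1.1
    by_cases hI : (X \ B X).Nonempty
    · have h6 := hBcard X hX hI
      have hsplit : ∑ v ∈ X \ B X, W X v + ∑ v ∈ B X, W X v = ∑ v ∈ X, W X v :=
        Finset.sum_sdiff (Finset.filter_subset _ _)
      have h7 : ∑ v ∈ X \ B X, W X v = (X \ B X).card * 12 := by
        rw [Finset.sum_const_nat]
        intro v hv
        rw [hW]
        simp only [if_pos hI, if_neg (Finset.mem_sdiff.1 hv).2]
      have h8 : ∑ v ∈ B X, W X v = (B X).card * 9 := by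
        rw [Finset.sum_const_nat]
        intro v hv
        rw [hW]
        simp only [if_pos hI, if_pos hv]
      have h9 : (X \ B X).card + (B X).card = X.card :=
        Finset.card_sdiff_add_card_eq_card (Finset.filter_subset _ _)
      omega
    · have h7 : ∑ v ∈ X, W X v = X.card * (if 6 ≤ X.card then 9 else max 3 (2 * (X.card - 1))) := by
        rw [Finset.sum_const_nat]
        intro v hv
        rw [hW]
        simp only [if_neg hI]
      rw [h7]
      by_cases h6 : 6 ≤ X.card
      · rw [if_pos h6]; omega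
      · rw [if_neg h6]
        have h8 : X.card = 2 ∨ X.card = 3 ∨ X.card = 4 ∨ X.card = 5 := by omega
        rcases h8 with h8 | h8 | h8 | h8 <;> rw [h8] <;> norm_num
  have hlower : ∀ v : V, 12 ≤ ∑ X ∈ M.filter (fun X => v ∈ X), W X v := by
    intro v
    by_cases hall : ∀ X ∈ M.filter (fun X => v ∈ X), ¬ (X \ B X).Nonempty ∧ X.card < 6
    · have h1 : ∀ X ∈ M.filter (fun X => v ∈ X), 2 * (X.erase v).card ≤ W X v := by
        intro X hX
        obtain ⟨hI, hc⟩ := hall X hX
        rw [Finset.mem_filter] at hX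
        rw [hW]
        simp only [if_neg hI, if_neg (not_le.2 hc)]
        rw [Finset.card_erase_of_mem hX.2]
        exact le_max_right _ _
      have h2 := Finset.sum_le_sum h1
      have h3 : nbr G.edgeSet v ⊆ (M.filter (fun X => v ∈ X)).biUnion fun X => X.erase v := by
        intro y hy
        have hvy : G.Adj v y := mem_nbr.1 hy
        obtain ⟨X, hX, hvX, hyX⟩ := hcovM v y hvy
        rw [Finset.mem_biUnion]
        exact ⟨X, Finset.mem_filter.2 ⟨hX, hvX⟩, Finset.mem_erase.2 ⟨hvy.ne.symm, hyX⟩⟩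
      have h4 := Finset.card_le_card h3
      have h5 := Finset.card_biUnion_le (s := M.filter (fun X => v ∈ X))
        (t := fun X => X.erase v)
      have h6 := h.deg v
      rw [← Finset.mul_sum] at h2
      omega
    · push Not at hall
      obtain ⟨X, hX, hX'⟩ := hall
      have hXM := Finset.mem_filter.1 hX
      by_cases hvB : v ∈ B X
      · obtain ⟨-, Y, hY, hYX, hvY⟩ := (hBmem X v).1 hvB
        have hY' : Y ∈ M.filter (fun X => v ∈ X) := Finset.mem_filter.2 ⟨hY, hvY⟩
        have h9 : W X v = 9 := by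
          rw [hW]
          by_cases hI : (X \ B X).Nonempty
          · simp only [if_pos hI, if_pos hvB]
          · have hc : 6 ≤ X.card := hX' (Finset.not_nonempty_iff_eq_empty.1 hI)
            simp only [if_neg hI, if_pos hc]
        have h3 : 3 ≤ W Y v := by
          rw [hW]
          dsimp only
          split_ifs
          · norm_num
          · norm_num
          · norm_num
          · exact le_max_left _ _
        have h10 : ∑ Z ∈ ({X, Y} : Finset (Finset V)), W Z v ≤
            ∑ Z ∈ M.filter (fun X => v ∈ X), W Z v := by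
          apply Finset.sum_le_sum_of_subset
          intro Z hZ
          rw [Finset.mem_insert, Finset.mem_singleton] at hZ
          rcases hZ with rfl | rfl <;> assumption
        rw [Finset.sum_pair hYX.symm, h9] at h10
        omega
      · have hI : (X \ B X).Nonempty := ⟨v, Finset.mem_sdiff.2 ⟨hXM.2, hvB⟩⟩
        have h9 : W X v = 12 := by
          rw [hW]
          simp only [if_pos hI, if_neg hvB]
        have h10 := Finset.single_le_sum (f := fun Z => W Z v) (fun Z _ => Nat.zero_le _) hX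
        omega
  -- the double count
  have h1 : ∑ v : V, ∑ X ∈ M.filter (fun X => v ∈ X), W X v = ∑ X ∈ M, ∑ v ∈ X, W X v := by
    rw [Finset.sum_congr rfl fun v _ => Finset.sum_filter _ _, Finset.sum_comm]
    refine Finset.sum_congr rfl fun X _ => ?_
    rw [← Finset.sum_filter]
    congr 1
    ext v
    simp
  have h2 : Fintype.card V * 12 ≤ ∑ v : V, ∑ X ∈ M.filter (fun X => v ∈ X), W X v := by
    rw [← huniv]
    exact Finset.card_nsmul_le_sum _ _ 12 fun v _ => hlower v
  have h3 := Finset.sum_le_sum hupper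
  rw [Finset.sum_add_distrib, ← Finset.mul_sum, Finset.sum_const, smul_eq_mul] at h3
  have h4 : ∑ X ∈ M, ((ins F X).ncard + 3) = ∑ X ∈ M, 2 * X.card :=
    Finset.sum_congr rfl fun X hX => ((hMmem X).1 hX).1.2
  rw [Finset.sum_add_distrib, ← Finset.mul_sum, Finset.sum_const, smul_eq_mul] at h4
  omega

/-- Every 6-connected graph has a good order. -/
theorem main {G : SimpleGraph V} (h : KConn 6 G) : Nonempty (Tri Finset.univ G.edgeSet) := by
  classical
  obtain ⟨F, hFE, hF⟩ := spanning h
  have hGnl : ∀ c, s(c, c) ∉ G.edgeSet := fun c hc => (SimpleGraph.mem_edgeSet G |>.1 hc).ne rfl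
  have h1 := sum_nbr hGnl
  have h2 : (Finset.univ : Finset V).card * 6 ≤ ∑ x, (nbr G.edgeSet x).card :=
    Finset.card_nsmul_le_sum _ _ 6 fun x _ => h.deg x
  have h3 := hF.card
  have h4 := hF.two
  obtain ⟨e, he, he'⟩ : ∃ e ∈ G.edgeSet, e ∉ F := by
    by_contra hcon
    push Not at hcon
    have := Set.ncard_le_ncard (show G.edgeSet ⊆ F from hcon) (Set.toFinite _)
    omega
  induction e using Sym2.ind with
  | _ a b =>
    obtain ⟨T⟩ := build _ Finset.univ rfl F hF a b (Finset.mem_univ _) (Finset.mem_univ _)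
      (SimpleGraph.mem_edgeSet G |>.1 he).ne he'
    refine ⟨T.mono ?_⟩
    rintro e (rfl | h5)
    · exact he
    · exact hFE h5

end Pool.Agent.K1H50.ST
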