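import Mathlib

/-!
Good orders: a linear order on a finite set `S` of vertices (given by a rational-valued injection)
with an up-edge at every vertex but the last and a down-edge at every vertex but the first, all these
edges distinct; and the two extension moves that keep them.
-/

set_option autoImplicit false

namespace Pool.Agent.K1H50.ST

variable {V : Type*}

/-- A good order of `S` with edges in `E`. -/
structure Tri (S : Finset V) (E : Set (Sym2 V)) where
  r : V → ℚ
  s : V
  t : V
  up : V → V
  dn : V → V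
  hs : s ∈ S
  ht : t ∈ S
  hst : s ≠ t
  inj : Set.InjOn r (S : Set V)
  hup : ∀ v ∈ S, v ≠ t → up v ∈ S ∧ r v < r (up v) ∧ s(v, up v) ∈ E
  hdn : ∀ v ∈ S, v ≠ s → dn v ∈ S ∧ r (dn v) < r v ∧ s(v, dn v) ∈ E
  hne : ∀ v ∈ S, v ≠ t → dn (up v) ≠ v

theorem Tri.le_t {S : Finset V} {E : Set (Sym2 V)} (T : Tri S E) {v : V} (hv : v ∈ S) :
    T.r v ≤ T.r T.t := by
  obtain ⟨m, hm, hmax⟩ := Finset.exists_max_image S T.r ⟨v, hv⟩
  by_cases h : m = T.t
  · subst h; exact hmax v hv
  · have h1 := T.hup m hm h
    exact absurd h1.2.1 (not_lt.2 (hmax _ h1.1))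

theorem Tri.s_le {S : Finset V} {E : Set (Sym2 V)} (T : Tri S E) {v : V} (hv : v ∈ S) :
    T.r T.s ≤ T.r v := by
  obtain ⟨m, hm, hmin⟩ := Finset.exists_min_image S T.r ⟨v, hv⟩
  by_cases h : m = T.s
  · subst h; exact hmin v hv
  · have h1 := T.hdn m hm h
    exact absurd h1.2.1 (not_lt.2 (hmin _ h1.1))

/-- Reversal of the order. -/
def Tri.flip {S : Finset V} {E : Set (Sym2 V)} (T : Tri S E) : Tri S E where
  r := fun v => - T.r v
  s := T.t
  t := T.s
  up := T.dn
  dn := T.up
  hs := T.ht
  ht := T.hs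
  hst := T.hst.symm
  inj := fun a ha b hb h => T.inj ha hb (neg_injective h)
  hup := fun v hv h => ⟨(T.hdn v hv h).1, neg_lt_neg (T.hdn v hv h).2.1, (T.hdn v hv h).2.2⟩
  hdn := fun v hv h => ⟨(T.hup v hv h).1, neg_lt_neg (T.hup v hv h).2.1, (T.hup v hv h).2.2⟩
  hne := by
    intro v hv h hcon
    have h1 := T.hdn v hv h
    have h2 : T.dn v ≠ T.t := by
      intro h3
      have := T.le_t hv
      rw [← h3] at this
      exact absurd h1.2.1 (not_lt.2 this)
    have h3 := T.hne _ h1.1 h2
    rw [hcon] at h3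
    exact h3 rfl

/-- A rational strictly between two given ones, avoiding the values on a finite set. -/
theorem exists_between (S : Finset V) (r : V → ℚ) {a b : ℚ} (h : a < b) :
    ∃ q, a < q ∧ q < b ∧ ∀ x ∈ S, r x ≠ q := by
  classical
  have h1 : (Set.Ioo a b).Infinite := Set.Ioo_infinite h
  obtain ⟨q, hq, hq'⟩ := h1.exists_notMem_finset (S.image r)
  refine ⟨q, hq.1, hq.2, fun x hx hxq => hq' ?_⟩
  rw [Finset.mem_image]
  exact ⟨x, hx, hxq⟩

/-- 0-extension, ordered form. -/
theorem ext0_aux [DecidableEq V] {S : Finset V} {E E' : Set (Sym2 V)} (T : Tri S E)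
    (hE : ∀ e ∈ E, e ∈ E') {z a b : V} (hz : z ∉ S) (ha : a ∈ S) (hb : b ∈ S)
    (hab : T.r a < T.r b) (hza : s(z, a) ∈ E') (hzb : s(z, b) ∈ E') :
    Nonempty (Tri (insert z S) E') := by
  obtain ⟨q, hq1, hq2, hq3⟩ := exists_between S T.r hab
  have hne : ∀ x ∈ S, x ≠ z := fun x hx h => hz (h ▸ hx)
  refine ⟨{
    r := fun x => if x = z then q else T.r x
    s := T.s
    t := T.t
    up := fun x => if x = z then b else T.up x
    dn := fun x => if x = z then a else T.dn x
    hs := Finset.mem_insert_of_mem T.hs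
    ht := Finset.mem_insert_of_mem T.ht
    hst := T.hst
    inj := ?_
    hup := ?_
    hdn := ?_
    hne := ?_ }⟩
  · intro x hx y hy hxy
    rw [Finset.mem_coe, Finset.mem_insert] at hx hy
    rcases hx with rfl | hx <;> rcases hy with rfl | hy
    · rfl
    · simp only [if_true, if_neg (hne y hy)] at hxy
      exact absurd hxy.symm (hq3 y hy)
    · simp only [if_true, if_neg (hne x hx)] at hxy
      exact absurd hxy (hq3 x hx)
    · simp only [if_neg (hne x hx), if_neg (hne y hy)] at hxy
      exact T.inj hx hy hxy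
  · intro v hv hvt
    rw [Finset.mem_insert] at hv
    rcases hv with rfl | hv
    · simp only [if_true, if_neg (hne b hb)]
      exact ⟨Finset.mem_insert_of_mem hb, hq2, hzb⟩
    · have h1 := T.hup v hv hvt
      simp only [if_neg (hne v hv), if_neg (hne _ h1.1)]
      exact ⟨Finset.mem_insert_of_mem h1.1, h1.2.1, hE _ h1.2.2⟩
  · intro v hv hvt
    rw [Finset.mem_insert] at hv
    rcases hv with rfl | hv
    · simp only [if_true, if_neg (hne a ha)]
      exact ⟨Finset.mem_insert_of_mem ha, hq1, hza⟩
    · have h1 := T.hdn v hv hvt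
      simp only [if_neg (hne v hv), if_neg (hne _ h1.1)]
      exact ⟨Finset.mem_insert_of_mem h1.1, h1.2.1, hE _ h1.2.2⟩
  · intro v hv hvt
    rw [Finset.mem_insert] at hv
    rcases hv with rfl | hv
    · simp only [if_true, if_neg (hne b hb)]
      have hbs : b ≠ T.s := by
        intro h
        have := T.s_le ha
        rw [← h] at this
        exact absurd hab (not_lt.2 this)
      exact hne _ (T.hdn b hb hbs).1
    · have h1 := T.hup v hv hvt
      simp only [if_neg (hne v hv), if_neg (hne _ h1.1)]
      exact T.hne v hv hvt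

/-- 0-extension: a new vertex with two neighbours. -/
theorem ext0 [DecidableEq V] {S : Finset V} {E E' : Set (Sym2 V)} (T : Tri S E)
    (hE : ∀ e ∈ E, e ∈ E') {z a b : V} (hz : z ∉ S) (ha : a ∈ S) (hb : b ∈ S)
    (hab : a ≠ b) (hza : s(z, a) ∈ E') (hzb : s(z, b) ∈ E') :
    Nonempty (Tri (insert z S) E') := by
  have h : T.r a ≠ T.r b := fun h => hab (T.inj ha hb h)
  rcases lt_or_gt_of_ne h with h | h
  · exact ext0_aux T hE hz ha hb h hza hzb
  · exact ext0_aux T hE hz hb ha h hzb hza

/-- 1-extension when the removed edge is the up-edge of `u`. -/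
theorem ext1_up [DecidableEq V] {S : Finset V} {E0 E E' : Set (Sym2 V)} {z u v a b : V}
    (T : Tri S E0) (hE0 : ∀ e ∈ E0, e = s(u, v) ∨ e ∈ E)
    (hE : ∀ e ∈ E, e ∈ E') (hz : z ∉ S) (hu : u ∈ S) (_hv : v ∈ S) (ha : a ∈ S) (hb : b ∈ S)
    (hut : u ≠ T.t) (huv : T.up u = v) (hab : T.r a < T.r b) (hub : T.r u < T.r b) (hau : a ≠ u)
    (hzu : s(z, u) ∈ E') (hza : s(z, a) ∈ E') (hzb : s(z, b) ∈ E') :
    Nonempty (Tri (insert z S) E') := by
  have hlt : max (T.r a) (T.r u) < T.r b := max_lt hab hub
  obtain ⟨q, hq0, hq2, hq3⟩ := exists_between S T.r hlt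
  have hq1 : T.r a < q := lt_of_le_of_lt (le_max_left _ _) hq0
  have hqu : T.r u < q := lt_of_le_of_lt (le_max_right _ _) hq0
  have hne : ∀ x ∈ S, x ≠ z := fun x hx h => hz (h ▸ hx)
  have huvr : T.r u < T.r v := by
    have := (T.hup u hu hut).2.1
    rwa [huv] at this
  refine ⟨{
    r := fun x => if x = z then q else T.r x
    s := T.s
    t := T.t
    up := fun x => if x = z then b else if x = u then z else T.up x
    dn := fun x => if x = z then a else T.dn x
    hs := Finset.mem_insert_of_mem T.hs
    ht := Finset.mem_insert_of_mem T.ht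
    hst := T.hst
    inj := ?_
    hup := ?_
    hdn := ?_
    hne := ?_ }⟩
  · intro x hx y hy hxy
    rw [Finset.mem_coe, Finset.mem_insert] at hx hy
    rcases hx with rfl | hx <;> rcases hy with rfl | hy
    · rfl
    · simp only [if_true, if_neg (hne y hy)] at hxy
      exact absurd hxy.symm (hq3 y hy)
    · simp only [if_true, if_neg (hne x hx)] at hxy
      exact absurd hxy (hq3 x hx)
    · simp only [if_neg (hne x hx), if_neg (hne y hy)] at hxy
      exact T.inj hx hy hxy
  · intro x hx hxt
    rw [Finset.mem_insert] at hx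
    rcases hx with rfl | hx
    · simp only [if_true, if_neg (hne b hb)]
      exact ⟨Finset.mem_insert_of_mem hb, hq2, hzb⟩
    · by_cases hxu : x = u
      · subst hxu
        simp only [if_neg (hne x hx), if_true]
        exact ⟨Finset.mem_insert_self _ _, hqu, by rw [Sym2.eq_swap]; exact hzu⟩
      · have h1 := T.hup x hx hxt
        simp only [if_neg (hne x hx), if_neg hxu, if_neg (hne _ h1.1)]
        refine ⟨Finset.mem_insert_of_mem h1.1, h1.2.1, hE _ ?_⟩
        rcases hE0 _ h1.2.2 with h2 | h2
        · exfalso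
          rw [Sym2.eq_iff] at h2
          rcases h2 with ⟨h3, -⟩ | ⟨h3, h4⟩
          · exact hxu h3
          · have := h1.2.1
            rw [h4, h3] at this
            exact absurd huvr (not_lt.2 this.le)
        · exact h2
  · intro x hx hxt
    rw [Finset.mem_insert] at hx
    rcases hx with rfl | hx
    · simp only [if_true, if_neg (hne a ha)]
      exact ⟨Finset.mem_insert_of_mem ha, hq1, hza⟩
    · have h1 := T.hdn x hx hxt
      simp only [if_neg (hne x hx), if_neg (hne _ h1.1)]
      refine ⟨Finset.mem_insert_of_mem h1.1, h1.2.1, hE _ ?_⟩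
      rcases hE0 _ h1.2.2 with h2 | h2
      · exfalso
        rw [Sym2.eq_iff] at h2
        rcases h2 with ⟨h3, h4⟩ | ⟨h3, h4⟩
        · have := h1.2.1
          rw [h4, h3] at this
          exact absurd huvr (not_lt.2 this.le)
        · have h5 := T.hne u hu hut
          rw [huv, ← h3, h4] at h5
          exact h5 rfl
      · exact h2
  · intro x hx hxt
    rw [Finset.mem_insert] at hx
    rcases hx with rfl | hx
    · simp only [if_true, if_neg (hne b hb)]
      have hbs : b ≠ T.s := by
        intro h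
        have := T.s_le ha
        rw [← h] at this
        exact absurd hab (not_lt.2 this)
      exact hne _ (T.hdn b hb hbs).1
    · by_cases hxu : x = u
      · subst hxu
        simp only [if_neg (hne x hx), if_true]
        exact hau
      · have h1 := T.hup x hx hxt
        simp only [if_neg (hne x hx), if_neg hxu, if_neg (hne _ h1.1)]
        exact T.hne x hx hxt

/-- Enlarging the edge set. -/
def Tri.mono {S : Finset V} {E E' : Set (Sym2 V)} (T : Tri S E) (h : ∀ e ∈ E, e ∈ E') :
    Tri S E' where
  r := T.r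
  s := T.s
  t := T.t
  up := T.up
  dn := T.dn
  hs := T.hs
  ht := T.ht
  hst := T.hst
  inj := T.inj
  hup := fun v hv hvt => ⟨(T.hup v hv hvt).1, (T.hup v hv hvt).2.1, h _ (T.hup v hv hvt).2.2⟩
  hdn := fun v hv hvt => ⟨(T.hdn v hv hvt).1, (T.hdn v hv hvt).2.1, h _ (T.hdn v hv hvt).2.2⟩
  hne := T.hne

/-- 1-extension, with `u` below `v`. -/
theorem ext1_lt [DecidableEq V] {S : Finset V} {E E' : Set (Sym2 V)} {z u v w : V}
    (T : Tri S (insert s(u, v) E))
    (hE : ∀ e ∈ E, e ∈ E') (hz : z ∉ S) (hu : u ∈ S) (hv : v ∈ S) (hw : w ∈ S)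
    (huw : u ≠ w) (hvw : v ≠ w) (hlt : T.r u < T.r v)
    (hzu : s(z, u) ∈ E') (hzv : s(z, v) ∈ E') (hzw : s(z, w) ∈ E') :
    Nonempty (Tri (insert z S) E') := by
  have huv : u ≠ v := by
    rintro rfl; exact lt_irrefl _ hlt
  have hwv' : T.r v ≠ T.r w := fun h => hvw (T.inj hv hw h)
  have hwu' : T.r u ≠ T.r w := fun h => huw (T.inj hu hw h)
  by_cases h1 : u ≠ T.t ∧ T.up u = v
  · rcases lt_or_gt_of_ne hwv' with h | h
    · -- v < w
      exact ext1_up T (fun e he => he) hE hz hu hv hv hw h1.1 h1.2 h (hlt.trans h) huv.symm hzu hzv hzw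
    · exact ext1_up T (fun e he => he) hE hz hu hv hw hv h1.1 h1.2 h hlt huw.symm hzu hzw hzv
  · by_cases h2 : v ≠ T.s ∧ T.dn v = u
    · -- reversed order
      have key : ∀ T' : Tri S (insert s(v, u) E), v ≠ T'.t → T'.up v = u → T'.r v < T'.r u →
          T'.r u ≠ T'.r w → Nonempty (Tri (insert z S) E') := by
        intro T' k1 k2 k3 k4
        rcases lt_or_gt_of_ne k4 with h | h
        · exact ext1_up T' (fun e he => he) hE hz hv hu hu hw k1 k2 h (k3.trans h) huv hzv hzu hzw
        · exact ext1_up T' (fun e he => he) hE hz hv hu hw hu k1 k2 h k3 hvw.symm hzv hzw hzu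
      have hE2 : ∀ e ∈ (insert s(u, v) E : Set (Sym2 V)), e ∈ (insert s(v, u) E : Set (Sym2 V)) := by
        intro e he
        rwa [Sym2.eq_swap]
      refine key (T.flip.mono hE2) h2.1 h2.2 (neg_lt_neg hlt) ?_
      intro h
      exact hwu' (neg_injective h)
    · -- the edge is not used
      have T' : Tri S E :=
        { r := T.r
          s := T.s
          t := T.t
          up := T.up
          dn := T.dn
          hs := T.hs
          ht := T.ht
          hst := T.hst
          inj := T.inj
          hup := by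
            intro x hx hxt
            have k := T.hup x hx hxt
            refine ⟨k.1, k.2.1, ?_⟩
            rcases k.2.2 with h3 | h3
            · exfalso
              rw [Sym2.eq_iff] at h3
              rcases h3 with ⟨h4, h5⟩ | ⟨h4, h5⟩
              · exact h1 ⟨h4 ▸ hxt, h4 ▸ h5⟩
              · have := k.2.1
                rw [h5, h4] at this
                exact absurd hlt (not_lt.2 this.le)
            · exact h3
          hdn := by
            intro x hx hxt
            have k := T.hdn x hx hxt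
            refine ⟨k.1, k.2.1, ?_⟩
            rcases k.2.2 with h3 | h3
            · exfalso
              rw [Sym2.eq_iff] at h3
              rcases h3 with ⟨h4, h5⟩ | ⟨h4, h5⟩
              · have := k.2.1
                rw [h5, h4] at this
                exact absurd hlt (not_lt.2 this.le)
              · exact h2 ⟨h4 ▸ hxt, h4 ▸ h5⟩
            · exact h3
          hne := T.hne }
      exact ext0 T' hE hz hu hv huv hzu hzv

/-- 1-extension. -/
theorem ext1 [DecidableEq V] {S : Finset V} {E E' : Set (Sym2 V)} {z u v w : V}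
    (T : Tri S (insert s(u, v) E))
    (hE : ∀ e ∈ E, e ∈ E') (hz : z ∉ S) (hu : u ∈ S) (hv : v ∈ S) (hw : w ∈ S)
    (huv : u ≠ v) (huw : u ≠ w) (hvw : v ≠ w)
    (hzu : s(z, u) ∈ E') (hzv : s(z, v) ∈ E') (hzw : s(z, w) ∈ E') :
    Nonempty (Tri (insert z S) E') := by
  have h : T.r u ≠ T.r v := fun h => huv (T.inj hu hv h)
  rcases lt_or_gt_of_ne h with h | h
  · exact ext1_lt T hE hz hu hv hw huw hvw h hzu hzv hzw
  · have hE2 : ∀ e ∈ (insert s(u, v) E : Set (Sym2 V)), e ∈ (insert s(v, u) E : Set (Sym2 V)) := by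
      intro e he
      rwa [Sym2.eq_swap]
    exact ext1_lt (T.mono hE2) hE hz hv hu hw hvw huw h hzv hzu hzw

/-- The complete graph on four vertices. -/
theorem k4 [DecidableEq V] {E : Set (Sym2 V)} {a b c d : V} (hab : a ≠ b) (hac : a ≠ c)
    (had : a ≠ d) (hbc : b ≠ c) (hbd : b ≠ d) (hcd : c ≠ d)
    (eab : s(a, b) ∈ E) (eac : s(a, c) ∈ E) (ead : s(a, d) ∈ E) (ebc : s(b, c) ∈ E)
    (ebd : s(b, d) ∈ E) (ecd : s(c, d) ∈ E) : Nonempty (Tri {a, b, c, d} E) := by
  refine ⟨{
    r := fun x => if x = a then 0 else if x = b then 1 else if x = c then 2 else 3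
    s := a
    t := d
    up := fun x => if x = a then c else d
    dn := fun x => if x = c then b else a
    hs := by simp
    ht := by simp
    hst := had
    inj := ?_
    hup := ?_
    hdn := ?_
    hne := ?_ }⟩
  · intro x hx y hy hxy
    simp only [Finset.coe_insert, Finset.coe_singleton, Set.mem_insert_iff,
      Set.mem_singleton_iff] at hx hy
    rcases hx with rfl | rfl | rfl | rfl <;> rcases hy with rfl | rfl | rfl | rfl <;>
      first
        | rfl
        | (exfalso; simp [hab.symm, hac.symm, had.symm, hbc.symm, hbd.symm, hcd.symm] at hxy)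
  · intro x hx hxt
    simp only [Finset.mem_insert, Finset.mem_singleton] at hx
    rcases hx with rfl | rfl | rfl | rfl
    · simp [hac.symm, hbc.symm, eac]
    · simp [hab.symm, had.symm, hbd.symm, hcd.symm, ebd]
      try norm_num
    · simp [hac.symm, hbc.symm, had.symm, hbd.symm, hcd.symm, ecd]
      try norm_num
    · exact absurd rfl hxt
  · intro x hx hxt
    simp only [Finset.mem_insert, Finset.mem_singleton] at hx
    rcases hx with rfl | rfl | rfl | rfl
    · exact absurd rfl hxt
    · simp [hab.symm, hbc]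
      rw [Sym2.eq_swap]; exact eab
    · simp [hac.symm, hbc.symm, hab.symm]
      rw [Sym2.eq_swap]; exact ebc
    · simp [hcd.symm, had.symm, hbd.symm]
      rw [Sym2.eq_swap]; exact ead
  · intro x hx hxt
    simp only [Finset.mem_insert, Finset.mem_singleton] at hx
    rcases hx with rfl | rfl | rfl | rfl
    · simp [hab.symm]
    · simp [hab.symm, hcd.symm, hab]
    · simp [hac.symm, hcd.symm, hac]
    · exact absurd rfl hxt

end Pool.Agent.K1H50.ST
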