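import Pool.Agent.K1H50.ST.Cover

/-!
From good orders to pairs of edge-disjoint spanning trees, for graphs with parallel edges.
-/

set_option autoImplicit false
set_option linter.unusedSectionVars false

namespace Pool.Agent.K1H50.ST

/-- A loopless graph with vertex type `V` and edge type `E`; parallel edges are allowed. -/
structure MGraph (V E : Type) where
  ends : E → Sym2 V
  loopless : ∀ e, ¬ (ends e).IsDiag

variable {V E : Type}

/-- Adjacency: two vertices joined by at least one edge. -/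
def MGraph.simple (G : MGraph V E) : SimpleGraph V := SimpleGraph.fromEdgeSet (Set.range G.ends)

/-- `K`-connected: at least `K + 1` vertices, and connected after deleting any set of fewer than `K`
vertices. -/
def MGraph.Connected [Fintype V] (G : MGraph V E) (K : ℕ) : Prop :=
  K + 1 ≤ Fintype.card V ∧
    ∀ X : Finset V, X.card < K → (G.simple.induce ((X : Set V)ᶜ)).Connected

/-- The set `T` of edges is a spanning tree. -/
def MGraph.SpanningTree (G : MGraph V E) (T : Set E) : Prop :=
  Set.InjOn G.ends T ∧ (SimpleGraph.fromEdgeSet (G.ends '' T)).IsTree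

/-- `G` has an `(s,t)`-triple. -/
def MGraph.HasTriple (G : MGraph V E) (s t : V) : Prop :=
  ∃ (_ : LinearOrder V) (I O : Set E),
    G.SpanningTree I ∧ G.SpanningTree O ∧ Disjoint I O ∧
    (∀ v, v ≠ t → ∃ e ∈ I, ∃ u, G.ends e = s(v, u) ∧ v < u) ∧
    (∀ v, v ≠ s → ∃ e ∈ O, ∃ u, G.ends e = s(v, u) ∧ u < v)

/-- The edges from every vertex but `t` to a vertex of larger value form a tree. -/
theorem tree_of_up [Fintype V] (r : V → ℚ) (f : V → V) (t : V) (h : ∀ v, v ≠ t → r v < r (f v)) :
    (SimpleGraph.fromEdgeSet {e | ∃ v, v ≠ t ∧ e = s(v, f v)}).IsTree := by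
  classical
  set A : Set (Sym2 V) := {e | ∃ v, v ≠ t ∧ e = s(v, f v)} with hA
  have hne : ∀ v, v ≠ t → v ≠ f v := fun v hv h' => by
    have := h v hv
    rw [← h'] at this
    exact lt_irrefl _ this
  rw [SimpleGraph.isTree_iff_connected_and_card]
  constructor
  · have key : ∀ (k : ℕ) (v : V), (Finset.univ.filter fun x => r v < r x).card ≤ k →
        (SimpleGraph.fromEdgeSet A).Reachable v t := by
      intro k
      induction k with
      | zero =>
        intro v hv
        by_cases hvt : v = t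
        · subst hvt; exact SimpleGraph.Reachable.refl _
        · have h1 := h v hvt
          rw [Nat.le_zero, Finset.card_eq_zero, Finset.eq_empty_iff_forall_notMem] at hv
          exact (hv (f v) (by simpa using h1)).elim
      | succ k ih =>
        intro v hv
        by_cases hvt : v = t
        · subst hvt; exact SimpleGraph.Reachable.refl _
        · have h1 := h v hvt
          have h2 : (Finset.univ.filter fun x => r (f v) < r x) ⊂
              (Finset.univ.filter fun x => r v < r x) := by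
            refine ⟨?_, ?_⟩
            · intro x hx
              rw [Finset.mem_filter] at hx ⊢
              exact ⟨hx.1, h1.trans hx.2⟩
            · intro hsub
              have h3 : f v ∈ Finset.univ.filter fun x => r v < r x :=
                Finset.mem_filter.2 ⟨Finset.mem_univ _, h1⟩
              have h4 := hsub h3
              rw [Finset.mem_filter] at h4
              exact lt_irrefl _ h4.2
          have h3 := Finset.card_lt_card h2
          have h4 := ih (f v) (by omega)
          refine SimpleGraph.Reachable.trans (SimpleGraph.Adj.reachable ?_) h4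
          rw [SimpleGraph.fromEdgeSet_adj]
          exact ⟨⟨v, hvt, rfl⟩, hne v hvt⟩
    have : Nonempty V := ⟨t⟩
    exact ⟨fun a b => (key _ a le_rfl).trans (key _ b le_rfl).symm⟩
  · have h1 : (SimpleGraph.fromEdgeSet A).edgeSet = A := by
      rw [SimpleGraph.edgeSet_fromEdgeSet]
      ext e
      simp only [Set.mem_sdiff, Sym2.mem_diagSet]
      constructor
      · exact fun h => h.1
      · rintro ⟨v, hv, rfl⟩
        refine ⟨⟨v, hv, rfl⟩, fun h' => ?_⟩
        rw [Sym2.mk_isDiag_iff] at h'
        exact hne v hv h'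
    have h2 : A = (fun v => s(v, f v)) '' {v | v ≠ t} := by
      ext e
      constructor
      · rintro ⟨v, hv, rfl⟩; exact ⟨v, hv, rfl⟩
      · rintro ⟨v, hv, rfl⟩; exact ⟨v, hv, rfl⟩
    have h3 : A.ncard = ({v | v ≠ t} : Set V).ncard := by
      rw [h2]
      apply Set.InjOn.ncard_image
      intro a ha b hb hab
      simp only [Sym2.eq_iff] at hab
      rcases hab with ⟨h4, -⟩ | ⟨h4, h5⟩
      · exact h4
      · exfalso
        have k1 := h a ha
        have k2 := h b hb
        rw [h5] at k1
        rw [← h4] at k2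
        exact lt_irrefl _ (k1.trans k2)
    have h4 : ({v | v ≠ t} : Set V).ncard + 1 = Nat.card V := by
      have h5 : ({v | v ≠ t} : Set V) = Set.univ \ {t} := by ext v; simp
      rw [h5, Set.ncard_sdiff_singleton_add_one (Set.mem_univ t) (Set.toFinite _),
        Set.ncard_univ]
    rw [h1, ← h4, ← h3]
    rfl

/-- **Every 6-connected graph, parallel edges allowed, has an `(s,t)`-triple.** -/
theorem final [Fintype V] (G : MGraph V E) (h : G.Connected 6) :
    ∃ s t : V, s ≠ t ∧ G.HasTriple s t := by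
  classical
  obtain ⟨T⟩ := main (G := G.simple) ⟨h.1, h.2⟩
  have hinj : Function.Injective T.r := fun a b hab =>
    T.inj (Finset.mem_coe.2 (Finset.mem_univ a)) (Finset.mem_coe.2 (Finset.mem_univ b)) hab
  have hedge : ∀ e ∈ G.simple.edgeSet, ∃ c : E, G.ends c = e := by
    intro e he
    unfold MGraph.simple at he
    rw [SimpleGraph.edgeSet_fromEdgeSet] at he
    exact he.1
  -- a representative of every pair of adjacent vertices
  have hE : Nonempty E := by
    obtain ⟨c, -⟩ := hedge _ (T.hup T.s (Finset.mem_univ _) T.hst).2.2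
    exact ⟨c⟩
  choose! c hc using hedge
  have hup : ∀ v, v ≠ T.t → G.ends (c s(v, T.up v)) = s(v, T.up v) := fun v hv =>
    hc _ (T.hup v (Finset.mem_univ _) hv).2.2
  have hdn : ∀ v, v ≠ T.s → G.ends (c s(v, T.dn v)) = s(v, T.dn v) := fun v hv =>
    hc _ (T.hdn v (Finset.mem_univ _) hv).2.2
  have hru : ∀ v, v ≠ T.t → T.r v < T.r (T.up v) := fun v hv => (T.hup v (Finset.mem_univ _) hv).2.1
  have hrd : ∀ v, v ≠ T.s → T.r (T.dn v) < T.r v := fun v hv => (T.hdn v (Finset.mem_univ _) hv).2.1
  refine ⟨T.s, T.t, T.hst, LinearOrder.lift' T.r hinj,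
    {e | ∃ v, v ≠ T.t ∧ e = c s(v, T.up v)}, {e | ∃ v, v ≠ T.s ∧ e = c s(v, T.dn v)},
    ⟨?_, ?_⟩, ⟨?_, ?_⟩, ?_, ?_, ?_⟩
  · rintro a ⟨v, hv, rfl⟩ b ⟨w, hw, rfl⟩ hab
    rw [hup v hv, hup w hw] at hab
    rw [hab]
  · have h1 : G.ends '' {e | ∃ v, v ≠ T.t ∧ e = c s(v, T.up v)} =
        {e | ∃ v, v ≠ T.t ∧ e = s(v, T.up v)} := by
      ext e
      constructor
      · rintro ⟨_, ⟨v, hv, rfl⟩, rfl⟩
        exact ⟨v, hv, hup v hv⟩
      · rintro ⟨v, hv, rfl⟩
        exact ⟨_, ⟨v, hv, rfl⟩, hup v hv⟩
    rw [h1]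
    exact tree_of_up T.r T.up T.t hru
  · rintro a ⟨v, hv, rfl⟩ b ⟨w, hw, rfl⟩ hab
    rw [hdn v hv, hdn w hw] at hab
    rw [hab]
  · have h1 : G.ends '' {e | ∃ v, v ≠ T.s ∧ e = c s(v, T.dn v)} =
        {e | ∃ v, v ≠ T.s ∧ e = s(v, T.dn v)} := by
      ext e
      constructor
      · rintro ⟨_, ⟨v, hv, rfl⟩, rfl⟩
        exact ⟨v, hv, hdn v hv⟩
      · rintro ⟨v, hv, rfl⟩
        exact ⟨_, ⟨v, hv, rfl⟩, hdn v hv⟩
    rw [h1]
    exact tree_of_up (fun v => - T.r v) T.dn T.s fun v hv => neg_lt_neg (hrd v hv)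
  · rw [Set.disjoint_left]
    rintro _ ⟨v, hv, rfl⟩ ⟨w, hw, hab⟩
    have h1 : s(v, T.up v) = s(w, T.dn w) := by
      rw [← hup v hv, ← hdn w hw, hab]
    rw [Sym2.eq_iff] at h1
    rcases h1 with ⟨h2, h3⟩ | ⟨h2, h3⟩
    · subst h2
      have k1 := hru v hv
      rw [h3] at k1
      exact lt_irrefl _ (k1.trans (hrd v hw))
    · have h4 := T.hne v (Finset.mem_univ _) hv
      rw [h3] at h4
      exact h4 h2.symm
  · intro v hv
    exact ⟨_, ⟨v, hv, rfl⟩, T.up v, hup v hv, hru v hv⟩
  · intro v hv
    exact ⟨_, ⟨v, hv, rfl⟩, T.dn v, hdn v hv, hrd v hv⟩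

end Pool.Agent.K1H50.ST
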