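import Pool.Agent.K1H50.ST.Sp
import Pool.Agent.K1H50.ST.Ext

/-!
Every minimally rigid (Laman) graph plus one further edge has a good order.
-/

set_option autoImplicit false
set_option linter.unusedSectionVars false
set_option linter.unusedSimpArgs false

namespace Pool.Agent.K1H50.ST

open Set

variable {V : Type} [Fintype V] [DecidableEq V]

/-- `F` is a minimally rigid (Laman) edge set on the vertex set `S`. -/
structure Laman (S : Finset V) (F : Set (Sym2 V)) : Prop where
  two : 2 ≤ S.card
  sp : Sparse F
  nl : ∀ c, s(c, c) ∉ F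
  sub : ∀ e ∈ F, ∀ v ∈ e, v ∈ S
  card : F.ncard + 3 = 2 * S.card

open Classical in
/-- Neighbours of `z` in the edge set `H`. -/
noncomputable def nbr (H : Set (Sym2 V)) (z : V) : Finset V := Finset.univ.filter fun y => s(z, y) ∈ H

theorem mem_nbr {H : Set (Sym2 V)} {z y : V} : y ∈ nbr H z ↔ s(z, y) ∈ H := by
  simp [nbr]

/-- Edges avoiding `z`. -/
def del (H : Set (Sym2 V)) (z : V) : Set (Sym2 V) := {e | e ∈ H ∧ z ∉ e}

theorem ncard_del (H : Set (Sym2 V)) (z : V) : (del H z).ncard + (nbr H z).card = H.ncard := by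
  classical
  have h1 : H = del H z ∪ (fun y => s(z, y)) '' (nbr H z : Set V) := by
    ext e
    constructor
    · intro he
      by_cases hz : z ∈ e
      · right
        obtain ⟨y, rfl⟩ := Sym2.mem_iff_exists.1 hz
        exact ⟨y, by rw [Finset.mem_coe, mem_nbr]; exact he, rfl⟩
      · left; exact ⟨he, hz⟩
    · rintro (he | ⟨y, hy, rfl⟩)
      · exact he.1
      · rw [Finset.mem_coe, mem_nbr] at hy; exact hy
  have h2 : Disjoint (del H z) ((fun y => s(z, y)) '' (nbr H z : Set V)) := by
    rw [Set.disjoint_left]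
    rintro e he ⟨y, -, rfl⟩
    exact he.2 (Sym2.mem_mk_left _ _)
  have h3 : ((fun y => s(z, y)) '' (nbr H z : Set V)).ncard = (nbr H z).card := by
    rw [Set.InjOn.ncard_image, Set.ncard_coe_finset]
    intro a _ b _ hab
    simp only [Sym2.eq_iff] at hab
    rcases hab with ⟨-, h⟩ | ⟨h1, h2⟩
    · exact h
    · rw [← h1, h2]
  conv_rhs => rw [h1]
  rw [Set.ncard_union_eq h2 (Set.toFinite _) (Set.toFinite _), h3]

/-- Handshake. -/
theorem sum_nbr {H : Set (Sym2 V)} (hH : ∀ c, s(c, c) ∉ H) :
    ∑ x, (nbr H x).card = 2 * H.ncard := by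
  classical
  have h1 := (SimpleGraph.fromEdgeSet H).sum_degrees_eq_twice_card_edges
  have h2 : (SimpleGraph.fromEdgeSet H).edgeSet = H := by
    rw [SimpleGraph.edgeSet_fromEdgeSet]
    ext e
    simp only [Set.mem_sdiff, Sym2.mem_diagSet]
    constructor
    · exact fun h => h.1
    · intro h
      refine ⟨h, fun h' => ?_⟩
      induction e using Sym2.ind with
      | _ a b =>
        rw [Sym2.mk_isDiag_iff] at h'
        subst h'
        exact hH _ h
  have h3 : ∀ x, (SimpleGraph.fromEdgeSet H).degree x = (nbr H x).card := by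
    intro x
    rw [← SimpleGraph.card_neighborFinset_eq_degree]
    congr 1
    ext y
    rw [SimpleGraph.mem_neighborFinset, SimpleGraph.fromEdgeSet_adj, mem_nbr]
    constructor
    · exact fun h => h.1
    · intro h
      refine ⟨h, ?_⟩
      rintro rfl
      exact hH _ h
  have h4 : ∑ v, (SimpleGraph.fromEdgeSet H).degree v = 2 * H.ncard := by
    rw [h1]
    congr 1
    rw [← Set.ncard_coe_finset, SimpleGraph.coe_edgeFinset, h2]
  rw [← h4]
  exact Finset.sum_congr rfl fun x _ => (h3 x).symm

theorem nbr_empty {S : Finset V} {H : Set (Sym2 V)} (hS : ∀ e ∈ H, ∀ v ∈ e, v ∈ S) {x : V}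
    (hx : x ∉ S) : (nbr H x).card = 0 := by
  rw [Finset.card_eq_zero, Finset.eq_empty_iff_forall_notMem]
  intro y hy
  exact hx (hS _ (mem_nbr.1 hy) x (Sym2.mem_mk_left _ _))

theorem sum_nbr_on {S : Finset V} {H : Set (Sym2 V)} (hH : ∀ c, s(c, c) ∉ H)
    (hS : ∀ e ∈ H, ∀ v ∈ e, v ∈ S) : ∑ x ∈ S, (nbr H x).card = 2 * H.ncard := by
  rw [← sum_nbr hH]
  exact Finset.sum_subset (Finset.subset_univ S) fun x _ hx => nbr_empty hS hx

theorem del_sub {S : Finset V} {F : Set (Sym2 V)} (h : Laman S F) (z : V) :
    ∀ e ∈ del F z, ∀ v ∈ e, v ∈ S.erase z := by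
  intro e he v hv
  rw [Finset.mem_erase]
  refine ⟨?_, h.sub e he.1 v hv⟩
  rintro rfl
  exact he.2 hv

theorem Laman.nbr_ge {S : Finset V} {F : Set (Sym2 V)} (h : Laman S F) {z : V} (hz : z ∈ S)
    (h3 : 3 ≤ S.card) : 2 ≤ (nbr F z).card := by
  have h1 := ncard_del F z
  have h2 := h.card
  have h4 : (S.erase z).card = S.card - 1 := Finset.card_erase_of_mem hz
  have h5 := h.sp (S.erase z) (by omega)
  have h6 : del F z ⊆ ins F (S.erase z) := fun e he => ⟨he.1, del_sub h z e he⟩
  have h7 := Set.ncard_le_ncard h6 (Set.toFinite _)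
  omega

theorem Laman.del2 {S : Finset V} {F : Set (Sym2 V)} (h : Laman S F) {z : V} (hz : z ∈ S)
    (h3 : 3 ≤ S.card) (hd : (nbr F z).card = 2) : Laman (S.erase z) (del F z) := by
  have h4 : (S.erase z).card = S.card - 1 := Finset.card_erase_of_mem hz
  refine ⟨by omega, h.sp.mono fun e he => he.1, fun c hc => h.nl c hc.1, del_sub h z, ?_⟩
  have h1 := ncard_del F z
  have h2 := h.card
  omega

theorem Laman.del3 {S : Finset V} {F : Set (Sym2 V)} (h : Laman S F) {z u v : V} (hz : z ∈ S)
    (h3 : 3 ≤ S.card) (hd : (nbr F z).card = 3) (hu : u ∈ nbr F z) (hv : v ∈ nbr F z)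
    (huv : u ≠ v) (hfree : ∀ S : Finset V, z ∉ S → u ∈ S → v ∈ S → ¬ TightOn F S) :
    Laman (S.erase z) (insert s(u, v) (del F z)) ∧ s(u, v) ∉ F := by
  have h4 : (S.erase z).card = S.card - 1 := Finset.card_erase_of_mem hz
  have hzu : u ≠ z := by rintro rfl; exact h.nl _ (mem_nbr.1 hu)
  have hzv : v ≠ z := by rintro rfl; exact h.nl _ (mem_nbr.1 hv)
  have hnot : s(u, v) ∉ F := by
    intro he
    apply hfree {u, v}
    · simp [hzu.symm, hzv.symm]
    · simp
    · simp
    · have hc : ({u, v} : Finset V).card = 2 := Finset.card_pair huv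
      refine ⟨by omega, ?_⟩
      have h5 := h.sp {u, v} (by omega)
      have h6 : ({s(u, v)} : Set (Sym2 V)) ⊆ ins F {u, v} := by
        intro e he'
        rw [Set.mem_singleton_iff] at he'
        subst he'
        refine ⟨he, fun x hx => ?_⟩
        rw [Sym2.mem_iff] at hx
        rcases hx with rfl | rfl <;> simp
      have h7 := Set.ncard_le_ncard h6 (Set.toFinite _)
      rw [Set.ncard_singleton] at h7
      omega
  refine ⟨⟨by omega, ?_, ?_, ?_, ?_⟩, hnot⟩
  · apply sparse_insert (h.sp.mono fun e he => he.1)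
    intro T hu' hv' hT
    -- remove z from T
    by_cases hzT : z ∈ T
    · have hT1 : (T.erase z).card = T.card - 1 := Finset.card_erase_of_mem hzT
      have hT2 : 2 ≤ (T.erase z).card := by
        have : ({u, v} : Finset V) ⊆ T.erase z := by
          intro x hx
          rw [Finset.mem_insert, Finset.mem_singleton] at hx
          rw [Finset.mem_erase]
          rcases hx with rfl | rfl
          · exact ⟨hzu, hu'⟩
          · exact ⟨hzv, hv'⟩
        have h8 := Finset.card_le_card this
        rw [Finset.card_pair huv] at h8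
        exact h8
      have h9 := (h.sp.mono (F := del F z) fun e he => he.1) (T.erase z) hT2
      have h10 : ins (del F z) T ⊆ ins (del F z) (T.erase z) := by
        intro e he
        refine ⟨he.1, fun x hx => ?_⟩
        rw [Finset.mem_erase]
        refine ⟨?_, he.2 x hx⟩
        rintro rfl
        exact he.1.2 hx
      have h11 := Set.ncard_le_ncard h10 (Set.toFinite _)
      have h12 := hT.2
      have h13 := hT.1
      omega
    · apply hfree T hzT hu' hv'
      refine ⟨hT.1, ?_⟩
      have h9 : ins F T = ins (del F z) T := by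
        ext e
        constructor
        · intro he
          exact ⟨⟨he.1, fun hz' => hzT (he.2 z hz')⟩, he.2⟩
        · intro he
          exact ⟨he.1.1, he.2⟩
      rw [h9]
      exact hT.2
  · rintro c (hc | hc)
    · rw [Sym2.eq_iff] at hc
      rcases hc with ⟨h1, h2⟩ | ⟨h1, h2⟩
      · exact huv (h1.symm.trans h2)
      · exact huv (h2.symm.trans h1)
    · exact h.nl c hc.1
  · rintro e (rfl | he) x hx
    · rw [Sym2.mem_iff] at hx
      rw [Finset.mem_erase]
      rcases hx with rfl | rfl
      · exact ⟨hzu, h.sub _ (mem_nbr.1 hu) _ (Sym2.mem_mk_right _ _)⟩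
      · exact ⟨hzv, h.sub _ (mem_nbr.1 hv) _ (Sym2.mem_mk_right _ _)⟩
    · exact del_sub h z e he x hx
  · have h1 := ncard_del F z
    have h2 := h.card
    have h5 : s(u, v) ∉ del F z := fun he => hnot he.1
    rw [Set.ncard_insert_of_notMem h5 (Set.toFinite _)]
    omega

/-- Three distinct neighbours, the first two not in a common tight set avoiding `z`. -/
theorem Laman.free {S : Finset V} {F : Set (Sym2 V)} (h : Laman S F) {z : V}
    (hd : (nbr F z).card = 3) : ∃ u v w, u ≠ v ∧ u ≠ w ∧ v ≠ w ∧ nbr F z = {u, v, w} ∧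
      ∀ S : Finset V, z ∉ S → u ∈ S → v ∈ S → ¬ TightOn F S := by
  obtain ⟨u, v, w, huv, huw, hvw, hN⟩ := Finset.card_eq_three.1 hd
  have hu : s(z, u) ∈ F := mem_nbr.1 (by rw [hN]; simp)
  have hv : s(z, v) ∈ F := mem_nbr.1 (by rw [hN]; simp)
  have hw : s(z, w) ∈ F := mem_nbr.1 (by rw [hN]; simp)
  rcases exists_free_pair h.sp h.nl huv huw hvw hu hv hw with h1 | h1 | h1
  · exact ⟨u, v, w, huv, huw, hvw, hN, h1⟩
  · refine ⟨v, w, u, hvw, huv.symm, huw.symm, ?_, h1⟩
    rw [hN]; ext x; simp; tauto
  · refine ⟨u, w, v, huw, huv, hvw.symm, ?_, h1⟩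
    rw [hN]; ext x; simp; tauto

/-- Among three distinct vertices not pairwise adjacent, with `z`, in a complete graph. -/
theorem pick {H : Set (Sym2 V)} {N : Finset V} (hN : N.card = 3)
    (hno : ∀ u v w, u ∈ N → v ∈ N → w ∈ N → u ≠ v → u ≠ w → v ≠ w →
      ¬ (s(u, v) ∈ H ∧ s(u, w) ∈ H ∧ s(v, w) ∈ H)) :
    ∃ u v w, u ≠ v ∧ u ≠ w ∧ v ≠ w ∧ N = {u, v, w} ∧ s(u, v) ∉ H := by
  obtain ⟨u, v, w, huv, huw, hvw, hN'⟩ := Finset.card_eq_three.1 hN
  have h1 := hno u v w (by rw [hN']; simp) (by rw [hN']; simp) (by rw [hN']; simp) huv huw hvw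
  by_cases h2 : s(u, v) ∈ H
  · by_cases h3 : s(u, w) ∈ H
    · have h4 : s(v, w) ∉ H := fun h4 => h1 ⟨h2, h3, h4⟩
      refine ⟨v, w, u, hvw, huv.symm, huw.symm, ?_, h4⟩
      rw [hN']; ext x; simp; tauto
    · refine ⟨u, w, v, huw, huv, hvw.symm, ?_, h3⟩
      rw [hN']; ext x; simp; tauto
  · exact ⟨u, v, w, huv, huw, hvw, hN', h2⟩

/-- A Laman edge set has at most `2|S|-2` pairs after adding one, so some degree is at most three. -/
theorem exists_low {S : Finset V} {F : Set (Sym2 V)} (h : Laman S F) {a b : V} (ha : a ∈ S)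
    (hb : b ∈ S) (hab : a ≠ b) (hn : s(a, b) ∉ F) :
    ∃ z ∈ S, (nbr (insert s(a, b) F) z).card ≤ 3 := by
  have hl : ∀ c, s(c, c) ∉ insert s(a, b) F := by
    rintro c (hc | hc)
    · rw [Sym2.eq_iff] at hc
      rcases hc with ⟨h1, h2⟩ | ⟨h1, h2⟩
      · exact hab (h1.symm.trans h2)
      · exact hab (h2.symm.trans h1)
    · exact h.nl c hc
  have hs : ∀ e ∈ insert s(a, b) F, ∀ v ∈ e, v ∈ S := by
    rintro e (rfl | he) v hv
    · rw [Sym2.mem_iff] at hv
      rcases hv with rfl | rfl <;> assumption
    · exact h.sub e he v hv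
  have h1 := sum_nbr_on hl hs
  rw [Set.ncard_insert_of_notMem hn (Set.toFinite _)] at h1
  by_contra hcon
  push Not at hcon
  have h2 : S.card * 4 ≤ ∑ x ∈ S, (nbr (insert s(a, b) F) x).card :=
    Finset.card_nsmul_le_sum S _ 4 fun x hx => hcon x hx
  have h3 := h.card
  omega

/-- The same outside a complete graph on four vertices, unless that is everything. -/
theorem exists_low4 {S : Finset V} {F : Set (Sym2 V)} (h : Laman S F) {a b : V} (ha : a ∈ S)
    (hb : b ∈ S) (hab : a ≠ b) (hn : s(a, b) ∉ F) {K : Finset V} (hK : K ⊆ S) (hK4 : K.card = 4)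
    (hKc : ∀ x ∈ K, ∀ y ∈ K, x ≠ y → s(x, y) ∈ insert s(a, b) F) (hne : K ≠ S) :
    ∃ z ∈ S, z ∉ K ∧ (nbr (insert s(a, b) F) z).card ≤ 3 := by
  have hl : ∀ c, s(c, c) ∉ insert s(a, b) F := by
    rintro c (hc | hc)
    · rw [Sym2.eq_iff] at hc
      rcases hc with ⟨h1, h2⟩ | ⟨h1, h2⟩
      · exact hab (h1.symm.trans h2)
      · exact hab (h2.symm.trans h1)
    · exact h.nl c hc
  have hs : ∀ e ∈ insert s(a, b) F, ∀ v ∈ e, v ∈ S := by
    rintro e (rfl | he) v hv
    · rw [Sym2.mem_iff] at hv
      rcases hv with rfl | rfl <;> assumption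
    · exact h.sub e he v hv
  have h1 := sum_nbr_on hl hs
  rw [Set.ncard_insert_of_notMem hn (Set.toFinite _)] at h1
  by_contra hcon
  push Not at hcon
  have h3 := h.card
  have h4 : ∑ x ∈ S \ K, (nbr (insert s(a, b) F) x).card + ∑ x ∈ K, (nbr (insert s(a, b) F) x).card
      = ∑ x ∈ S, (nbr (insert s(a, b) F) x).card := Finset.sum_sdiff hK
  have h5 : (S \ K).card * 4 ≤ ∑ x ∈ S \ K, (nbr (insert s(a, b) F) x).card :=
    Finset.card_nsmul_le_sum _ _ 4 fun x hx =>
      hcon x (Finset.mem_sdiff.1 hx).1 (Finset.mem_sdiff.1 hx).2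
  have h6 : (S \ K).card = S.card - 4 := by
    rw [Finset.card_sdiff_of_subset hK, hK4]
  have h7 : 4 ≤ S.card := hK4 ▸ Finset.card_le_card hK
  have h8 : ∀ x ∈ K, K.erase x ⊆ nbr (insert s(a, b) F) x := by
    intro x hx y hy
    rw [Finset.mem_erase] at hy
    exact mem_nbr.2 (hKc x hx y hy.2 hy.1.symm)
  have h9 : ∀ x ∈ K, 3 ≤ (nbr (insert s(a, b) F) x).card := by
    intro x hx
    have := Finset.card_le_card (h8 x hx)
    rw [Finset.card_erase_of_mem hx, hK4] at this
    exact this
  -- every vertex of `K` has degree exactly three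
  have h10 : ∀ x ∈ K, (nbr (insert s(a, b) F) x).card = 3 := by
    intro x hx
    have k1 : ∑ y ∈ K.erase x, (nbr (insert s(a, b) F) y).card + (nbr (insert s(a, b) F) x).card
        = ∑ y ∈ K, (nbr (insert s(a, b) F) y).card := Finset.sum_erase_add _ _ hx
    have k2 : (K.erase x).card * 3 ≤ ∑ y ∈ K.erase x, (nbr (insert s(a, b) F) y).card :=
      Finset.card_nsmul_le_sum _ _ 3 fun y hy => h9 y (Finset.mem_of_mem_erase hy)
    rw [Finset.card_erase_of_mem hx, hK4] at k2
    have k3 := h9 x hx
    omega
  have h11 : ∀ x ∈ K, nbr (insert s(a, b) F) x = K.erase x := by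
    intro x hx
    symm
    apply Finset.eq_of_subset_of_card_le (h8 x hx)
    rw [h10 x hx, Finset.card_erase_of_mem hx, hK4]
  have h12 : F ⊆ ins F K ∪ ins F (S \ K) := by
    intro e he
    induction e using Sym2.ind with
    | _ x y =>
      have hxS := h.sub _ he x (Sym2.mem_mk_left _ _)
      have hyS := h.sub _ he y (Sym2.mem_mk_right _ _)
      have hxy : x ∈ K → y ∈ K := by
        intro hx
        have : y ∈ nbr (insert s(a, b) F) x := mem_nbr.2 (Or.inr he)
        rw [h11 x hx] at this
        exact Finset.mem_of_mem_erase this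
      have hyx : y ∈ K → x ∈ K := by
        intro hy
        have : x ∈ nbr (insert s(a, b) F) y := mem_nbr.2 (Or.inr (by rw [Sym2.eq_swap]; exact he))
        rw [h11 y hy] at this
        exact Finset.mem_of_mem_erase this
      by_cases hx : x ∈ K
      · left
        refine ⟨he, fun t ht => ?_⟩
        rw [Sym2.mem_iff] at ht
        rcases ht with rfl | rfl
        · exact hx
        · exact hxy hx
      · right
        refine ⟨he, fun t ht => ?_⟩
        rw [Sym2.mem_iff] at ht
        rw [Finset.mem_sdiff]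
        rcases ht with rfl | rfl
        · exact ⟨hxS, hx⟩
        · exact ⟨hyS, fun hy => hx (hyx hy)⟩
  have h13 := Set.ncard_le_ncard h12 (Set.toFinite _)
  have h14 := Set.ncard_union_le (ins F K) (ins F (S \ K))
  have h15 := h.sp K (by omega)
  have h16 : 1 ≤ (S \ K).card := by
    rw [Nat.one_le_iff_ne_zero]
    intro h0
    rw [Finset.card_eq_zero, Finset.sdiff_eq_empty_iff_subset] at h0
    exact hne (Finset.Subset.antisymm hK h0)
  by_cases h17 : 2 ≤ (S \ K).card
  · have h18 := h.sp (S \ K) h17
    omega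
  · have h18 : (S \ K).card = 1 := by omega
    obtain ⟨x, hx⟩ := Finset.card_eq_one.1 h18
    have h19 : ins F (S \ K) = ∅ := by
      rw [Set.eq_empty_iff_forall_notMem]
      rintro e ⟨he, he'⟩
      induction e using Sym2.ind with
      | _ p q =>
        have e1 := he' p (Sym2.mem_mk_left _ _)
        have e2 := he' q (Sym2.mem_mk_right _ _)
        rw [hx, Finset.mem_singleton] at e1 e2
        subst e1; subst e2
        exact h.nl _ he
    rw [h19, Set.union_empty] at h13
    omega

/-- **Every Laman graph with one further edge has a good order.** -/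
theorem build : ∀ (n : ℕ) (S : Finset V), S.card = n → ∀ F : Set (Sym2 V), Laman S F →
    ∀ a b : V, a ∈ S → b ∈ S → a ≠ b → s(a, b) ∉ F → Nonempty (Tri S (insert s(a, b) F)) := by
  intro n
  induction n with
  | zero =>
    intro S hS F hF
    have := hF.two
    omega
  | succ n ih =>
    intro S hS F hF a b ha hb hab hn
    -- the size is at least 3
    have h3 : 3 ≤ S.card := by
      by_contra hlt
      have h2 : S.card = 2 := by have := hF.two; omega
      have h4 : S = {a, b} := by
        symm
        apply Finset.eq_of_subset_of_card_le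
        · intro x hx
          rw [Finset.mem_insert, Finset.mem_singleton] at hx
          rcases hx with rfl | rfl <;> assumption
        · rw [h2, Finset.card_pair hab]
      have h5 := hF.card
      have h6 : F.ncard = 1 := by omega
      obtain ⟨e, he⟩ := Set.ncard_eq_one.1 h6
      apply hn
      have h7 : e ∈ F := by rw [he]; exact Set.mem_singleton _
      have h8 : e = s(a, b) := by
        induction e using Sym2.ind with
        | _ x y =>
          have hx := hF.sub _ h7 x (Sym2.mem_mk_left _ _)
          have hy := hF.sub _ h7 y (Sym2.mem_mk_right _ _)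
          rw [h4, Finset.mem_insert, Finset.mem_singleton] at hx hy
          rcases hx with rfl | rfl <;> rcases hy with rfl | rfl
          · exact absurd h7 (hF.nl _)
          · rfl
          · exact Sym2.eq_swap
          · exact absurd h7 (hF.nl _)
      rw [← h8]; exact h7
    set H : Set (Sym2 V) := insert s(a, b) F with hHdef
    have hHe : s(a, b) ∈ H := Set.mem_insert _ _
    have hFH : ∀ e ∈ F, e ∈ H := fun e he => Set.mem_insert_of_mem _ he
    have hHnl : ∀ c, s(c, c) ∉ H := by
      rintro c (hc | hc)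
      · rw [Sym2.eq_iff] at hc
        rcases hc with ⟨h1, h2⟩ | ⟨h1, h2⟩
        · exact hab (h1.symm.trans h2)
        · exact hab (h2.symm.trans h1)
      · exact hF.nl c hc
    have hHsub : ∀ e ∈ H, ∀ v ∈ e, v ∈ S := by
      rintro e (rfl | he) v hv
      · rw [Sym2.mem_iff] at hv
        rcases hv with rfl | rfl <;> assumption
      · exact hF.sub e he v hv
    -- removing a vertex
    have herase : ∀ z ∈ S, (S.erase z).card = n := by
      intro z hz
      rw [Finset.card_erase_of_mem hz]; omega
    have hins : ∀ z ∈ S, insert z (S.erase z) = S := fun z hz => Finset.insert_erase hz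
    have hnbS : ∀ z x, x ∈ nbr H z → x ∈ S.erase z := by
      intro z x hx
      have hx' := mem_nbr.1 hx
      rw [Finset.mem_erase]
      refine ⟨?_, hHsub _ hx' x (Sym2.mem_mk_right _ _)⟩
      rintro rfl
      exact hHnl _ hx'
    -- step C
    have stepC : ∀ (z : V) (F' : Set (Sym2 V)) (u v w : V), z ∈ S → Laman (S.erase z) F' →
        (∀ e ∈ F', e ∈ H) → u ∈ nbr H z → v ∈ nbr H z → w ∈ nbr H z → u ≠ v → u ≠ w → v ≠ w →
        s(u, v) ∉ H → Nonempty (Tri S H) := by
      intro z F' u v w hz hF' hF'H hu hv hw huv huw hvw hnot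
      obtain ⟨T⟩ := ih (S.erase z) (herase z hz) F' hF' u v (hnbS z u hu) (hnbS z v hv) huv
        (fun h => hnot (hF'H _ h))
      have := ext1 (E' := H) T hF'H (Finset.notMem_erase z S) (hnbS z u hu) (hnbS z v hv)
        (hnbS z w hw) huv huw hvw (mem_nbr.1 hu) (mem_nbr.1 hv) (mem_nbr.1 hw)
      rwa [hins z hz] at this
    -- step A
    have stepA : ∀ z : V, z ∈ S → z ≠ a → z ≠ b → (nbr F z).card = 2 → Nonempty (Tri S H) := by
      intro z hz hza hzb hd
      have h1 := hF.del2 hz h3 hd
      obtain ⟨T⟩ := ih (S.erase z) (herase z hz) (del F z) h1 a b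
        (Finset.mem_erase.2 ⟨hza.symm, ha⟩) (Finset.mem_erase.2 ⟨hzb.symm, hb⟩) hab
        (fun h => hn h.1)
      obtain ⟨u, v, huv, hN⟩ := Finset.card_eq_two.1 hd
      have hu : u ∈ nbr F z := by rw [hN]; simp
      have hv : v ∈ nbr F z := by rw [hN]; simp
      have hu' : u ∈ nbr H z := mem_nbr.2 (hFH _ (mem_nbr.1 hu))
      have hv' : v ∈ nbr H z := mem_nbr.2 (hFH _ (mem_nbr.1 hv))
      have := ext0 (E' := H) T (by
        rintro e (rfl | he)
        · exact hHe
        · exact hFH e he.1) (Finset.notMem_erase z S) (hnbS z u hu') (hnbS z v hv') huv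
        (mem_nbr.1 hu') (mem_nbr.1 hv')
      rwa [hins z hz] at this
    -- step B
    have stepB : ∀ (z u v w : V), z ∈ S → z ≠ a → z ≠ b → (nbr F z).card = 3 →
        nbr F z = {u, v, w} → u ≠ v → u ≠ w → v ≠ w →
        (∀ S : Finset V, z ∉ S → u ∈ S → v ∈ S → ¬ TightOn F S) → s(u, v) ≠ s(a, b) →
        Nonempty (Tri S H) := by
      intro z u v w hz hza hzb hd hN huv huw hvw hfree hne
      have hu : u ∈ nbr F z := by rw [hN]; simp
      have hv : v ∈ nbr F z := by rw [hN]; simp
      have hw : w ∈ nbr F z := by rw [hN]; simp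
      have hu' : u ∈ nbr H z := mem_nbr.2 (hFH _ (mem_nbr.1 hu))
      have hv' : v ∈ nbr H z := mem_nbr.2 (hFH _ (mem_nbr.1 hv))
      have hw' : w ∈ nbr H z := mem_nbr.2 (hFH _ (mem_nbr.1 hw))
      obtain ⟨h1, h2⟩ := hF.del3 hz h3 hd hu hv huv hfree
      obtain ⟨T⟩ := ih (S.erase z) (herase z hz) _ h1 a b
        (Finset.mem_erase.2 ⟨hza.symm, ha⟩) (Finset.mem_erase.2 ⟨hzb.symm, hb⟩) hab (by
          rintro (h | h)
          · exact hne h.symm
          · exact hn h.1)
      have T' : Tri (S.erase z) (insert s(u, v) (insert s(a, b) (del F z))) := T.mono (by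
        rintro e (rfl | rfl | he)
        · exact Or.inr (Or.inl rfl)
        · exact Or.inl rfl
        · exact Or.inr (Or.inr he))
      have := ext1 (E' := H) T' (by
        rintro e (rfl | he)
        · exact hHe
        · exact hFH e he.1) (Finset.notMem_erase z S) (hnbS z u hu') (hnbS z v hv')
        (hnbS z w hw') huv huw hvw (mem_nbr.1 hu') (mem_nbr.1 hv') (mem_nbr.1 hw')
      rwa [hins z hz] at this
    have hFHnb : ∀ z, nbr F z ⊆ nbr H z := fun z x hx => mem_nbr.2 (hFH _ (mem_nbr.1 hx))
    have hnbeq : ∀ z, z ≠ a → z ≠ b → nbr H z = nbr F z := by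
      intro z hza hzb
      ext x
      rw [mem_nbr, mem_nbr]
      constructor
      · rintro (h | h)
        · exfalso
          rw [Sym2.eq_iff] at h
          rcases h with ⟨h1, -⟩ | ⟨h1, -⟩
          · exact hza h1
          · exact hzb h1
        · exact h
      · exact hFH _
    by_cases hcase : ∃ K : Finset V, K ⊆ S ∧ K.card = 4 ∧ ∀ x ∈ K, ∀ y ∈ K, x ≠ y → s(x, y) ∈ H
    · -- there is a complete graph on four vertices
      obtain ⟨K, hKS, hK4, hKc⟩ := hcase
      by_cases hKS' : K = S
      · subst hKS'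
        obtain ⟨x, y, z, w, hxy, hxz, hxw, hyz, hyw, hzw, hK⟩ := Finset.card_eq_four.1 hK4
        have m1 : x ∈ K := by rw [hK]; simp
        have m2 : y ∈ K := by rw [hK]; simp
        have m3 : z ∈ K := by rw [hK]; simp
        have m4 : w ∈ K := by rw [hK]; simp
        rw [hK]
        exact k4 hxy hxz hxw hyz hyw hzw (hKc x m1 y m2 hxy) (hKc x m1 z m3 hxz)
          (hKc x m1 w m4 hxw) (hKc y m2 z m3 hyz) (hKc y m2 w m4 hyw) (hKc z m3 w m4 hzw)
      · obtain ⟨z, hz, hzK, hz3⟩ := exists_low4 hF ha hb hab hn hKS hK4 hKc hKS'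
        change (nbr H z).card ≤ 3 at hz3
        -- the extra edge is inside `K`
        have hKab : a ∈ K ∧ b ∈ K := by
          by_contra hcon
          have k1 := hF.sp K (by omega)
          -- all pairs of `K` are in `F`
          obtain ⟨x, y, z, w, hxy, hxz, hxw, hyz, hyw, hzw, hK⟩ := Finset.card_eq_four.1 hK4
          have m1 : x ∈ K := by rw [hK]; simp
          have m2 : y ∈ K := by rw [hK]; simp
          have m3 : z ∈ K := by rw [hK]; simp
          have m4 : w ∈ K := by rw [hK]; simp
          have hp : ∀ p ∈ K, ∀ q ∈ K, p ≠ q → s(p, q) ∈ ins F K := by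
            intro p hp q hq hpq
            refine ⟨?_, ?_⟩
            · rcases hKc p hp q hq hpq with h | h
              · exfalso
                rw [Sym2.eq_iff] at h
                rcases h with ⟨h1, h2⟩ | ⟨h1, h2⟩
                · exact hcon ⟨h1 ▸ hp, h2 ▸ hq⟩
                · exact hcon ⟨h2 ▸ hq, h1 ▸ hp⟩
              · exact h
            · intro t ht
              rw [Sym2.mem_iff] at ht
              rcases ht with rfl | rfl <;> assumption
          have hsub : ({s(x, y), s(x, z), s(x, w), s(y, z), s(y, w), s(z, w)} : Finset (Sym2 V))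
              ⊆ (ins F K).toFinite.toFinset := by
            intro e he
            rw [Set.Finite.mem_toFinset]
            simp only [Finset.mem_insert, Finset.mem_singleton] at he
            rcases he with rfl | rfl | rfl | rfl | rfl | rfl
            · exact hp _ m1 _ m2 hxy
            · exact hp _ m1 _ m3 hxz
            · exact hp _ m1 _ m4 hxw
            · exact hp _ m2 _ m3 hyz
            · exact hp _ m2 _ m4 hyw
            · exact hp _ m3 _ m4 hzw
          have h6 := Finset.card_le_card hsub
          have h7 : ({s(x, y), s(x, z), s(x, w), s(y, z), s(y, w), s(z, w)} :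
              Finset (Sym2 V)).card = 6 := by
            rw [Finset.card_insert_of_notMem, Finset.card_insert_of_notMem,
              Finset.card_insert_of_notMem, Finset.card_insert_of_notMem,
              Finset.card_insert_of_notMem, Finset.card_singleton] <;>
            simp [hxy, hxz, hxw, hyz, hyw, hzw, hxy.symm, hxz.symm, hxw.symm, hyz.symm, hyw.symm,
              hzw.symm]
          rw [h7, ← Set.ncard_eq_toFinset_card] at h6
          omega
        have hza : z ≠ a := by rintro rfl; exact hzK hKab.1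
        have hzb : z ≠ b := by rintro rfl; exact hzK hKab.2
        rw [hnbeq z hza hzb] at hz3
        have hz2 := hF.nbr_ge hz h3
        rcases Nat.lt_or_ge (nbr F z).card 3 with hlt | hge
        · exact stepA z hz hza hzb (by omega)
        · have hd : (nbr F z).card = 3 := by omega
          obtain ⟨u, v, w, huv, huw, hvw, hN, hfree⟩ := hF.free hd
          refine stepB z u v w hz hza hzb hd hN huv huw hvw hfree ?_
          intro heq
          -- otherwise `K` would span six pairs of a sparse set
          have hu : u ∈ nbr F z := by rw [hN]; simp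
          have hv : v ∈ nbr F z := by rw [hN]; simp
          obtain ⟨h1, h2⟩ := hF.del3 hz h3 hd hu hv huv hfree
          have k1 := h1.sp K (by omega)
          obtain ⟨x, y, z', w', hxy, hxz, hxw, hyz, hyw, hzw, hK⟩ := Finset.card_eq_four.1 hK4
          have m1 : x ∈ K := by rw [hK]; simp
          have m2 : y ∈ K := by rw [hK]; simp
          have m3 : z' ∈ K := by rw [hK]; simp
          have m4 : w' ∈ K := by rw [hK]; simp
          have hp : ∀ p ∈ K, ∀ q ∈ K, p ≠ q → s(p, q) ∈ ins (insert s(u, v) (del F z)) K := by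
            intro p hp q hq hpq
            refine ⟨?_, ?_⟩
            · rcases hKc p hp q hq hpq with h | h
              · left; rw [heq]; exact h
              · right
                refine ⟨h, fun ht => ?_⟩
                rw [Sym2.mem_iff] at ht
                rcases ht with rfl | rfl
                · exact hzK hp
                · exact hzK hq
            · intro t ht
              rw [Sym2.mem_iff] at ht
              rcases ht with rfl | rfl <;> assumption
          have hsub : ({s(x, y), s(x, z'), s(x, w'), s(y, z'), s(y, w'), s(z', w')} :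
              Finset (Sym2 V)) ⊆ (ins (insert s(u, v) (del F z)) K).toFinite.toFinset := by
            intro e he
            rw [Set.Finite.mem_toFinset]
            simp only [Finset.mem_insert, Finset.mem_singleton] at he
            rcases he with rfl | rfl | rfl | rfl | rfl | rfl
            · exact hp _ m1 _ m2 hxy
            · exact hp _ m1 _ m3 hxz
            · exact hp _ m1 _ m4 hxw
            · exact hp _ m2 _ m3 hyz
            · exact hp _ m2 _ m4 hyw
            · exact hp _ m3 _ m4 hzw
          have h6 := Finset.card_le_card hsub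
          have h7 : ({s(x, y), s(x, z'), s(x, w'), s(y, z'), s(y, w'), s(z', w')} :
              Finset (Sym2 V)).card = 6 := by
            rw [Finset.card_insert_of_notMem, Finset.card_insert_of_notMem,
              Finset.card_insert_of_notMem, Finset.card_insert_of_notMem,
              Finset.card_insert_of_notMem, Finset.card_singleton] <;>
            simp [hxy, hxz, hxw, hyz, hyw, hzw, hxy.symm, hxz.symm, hxw.symm, hyz.symm, hyw.symm,
              hzw.symm]
          rw [h7, ← Set.ncard_eq_toFinset_card] at h6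
          omega
    · -- no complete graph on four vertices
      obtain ⟨z, hz, hz3⟩ := exists_low hF ha hb hab hn
      change (nbr H z).card ≤ 3 at hz3
      have hz2 := hF.nbr_ge hz h3
      have hz23 := Finset.card_le_card (hFHnb z)
      have hno : ∀ u v w, u ∈ nbr H z → v ∈ nbr H z → w ∈ nbr H z → u ≠ v → u ≠ w → v ≠ w →
          ¬ (s(u, v) ∈ H ∧ s(u, w) ∈ H ∧ s(v, w) ∈ H) := by
        rintro u v w hu hv hw huv huw hvw ⟨h1, h2, h3'⟩
        apply hcase
        have hzu : z ≠ u := (Finset.mem_erase.1 (hnbS z u hu)).1.symm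
        have hzv : z ≠ v := (Finset.mem_erase.1 (hnbS z v hv)).1.symm
        have hzw : z ≠ w := (Finset.mem_erase.1 (hnbS z w hw)).1.symm
        refine ⟨{z, u, v, w}, ?_, ?_, ?_⟩
        · intro x hx
          simp only [Finset.mem_insert, Finset.mem_singleton] at hx
          rcases hx with rfl | rfl | rfl | rfl
          · exact hz
          · exact (Finset.mem_erase.1 (hnbS z _ hu)).2
          · exact (Finset.mem_erase.1 (hnbS z _ hv)).2
          · exact (Finset.mem_erase.1 (hnbS z _ hw)).2
        · exact Finset.card_eq_four.2 ⟨z, u, v, w, hzu, hzv, hzw, huv, huw, hvw, rfl⟩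
        · have eu := mem_nbr.1 hu
          have ev := mem_nbr.1 hv
          have ew := mem_nbr.1 hw
          intro x hx y hy hxy
          simp only [Finset.mem_insert, Finset.mem_singleton] at hx hy
          rcases hx with rfl | rfl | rfl | rfl <;> rcases hy with rfl | rfl | rfl | rfl <;>
            first
              | exact absurd rfl hxy
              | assumption
              | (rw [Sym2.eq_swap]; assumption)
      by_cases hzab : z ≠ a ∧ z ≠ b
      · obtain ⟨hza, hzb⟩ := hzab
        rw [hnbeq z hza hzb] at hz3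
        rcases Nat.lt_or_ge (nbr F z).card 3 with hlt | hge
        · exact stepA z hz hza hzb (by omega)
        · have hd : (nbr F z).card = 3 := by omega
          obtain ⟨u, v, w, huv, huw, hvw, hN, hfree⟩ := hF.free hd
          by_cases heq : s(u, v) = s(a, b)
          · have hu : u ∈ nbr F z := by rw [hN]; simp
            have hv : v ∈ nbr F z := by rw [hN]; simp
            obtain ⟨h1, h2⟩ := hF.del3 hz h3 hd hu hv huv hfree
            have hdH : (nbr H z).card = 3 := by rw [hnbeq z hza hzb]; exact hd
            obtain ⟨u', v', w', huv', huw', hvw', hN', hnot⟩ := pick hdH hno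
            refine stepC z _ u' v' w' hz h1 ?_ (by rw [hN']; simp) (by rw [hN']; simp)
              (by rw [hN']; simp) huv' huw' hvw' hnot
            rintro e (rfl | he)
            · rw [heq]; exact hHe
            · exact hFH e he.1
          · exact stepB z u v w hz hza hzb hd hN huv huw hvw hfree heq
      · -- `z` is an end of the extra edge
        have hex : ∃ y, s(a, b) = s(z, y) := by
          rw [not_and_or, not_not, not_not] at hzab
          rcases hzab with rfl | rfl
          · exact ⟨b, rfl⟩
          · exact ⟨a, Sym2.eq_swap⟩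
        obtain ⟨y, hy⟩ := hex
        have hy1 : y ∈ nbr H z := mem_nbr.2 (hy ▸ hHe)
        have hy2 : y ∉ nbr F z := fun h => hn (hy ▸ mem_nbr.1 h)
        have hlt : (nbr F z).card < (nbr H z).card :=
          Finset.card_lt_card ⟨hFHnb z, fun h => hy2 (h hy1)⟩
        have hd : (nbr F z).card = 2 := by omega
        have hdH : (nbr H z).card = 3 := by omega
        obtain ⟨u', v', w', huv', huw', hvw', hN', hnot⟩ := pick hdH hno
        exact stepC z _ u' v' w' hz (hF.del2 hz h3 hd) (fun e he => hFH e he.1)
          (by rw [hN']; simp) (by rw [hN']; simp) (by rw [hN']; simp) huv' huw' hvw' hnot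

end Pool.Agent.K1H50.ST
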