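import Mathlib

set_option autoImplicit false
set_option linter.unusedSectionVars false
set_option linter.unusedSimpArgs false

namespace Pool.Agent.K1H50.ST

open Set

variable {V : Type*} [Fintype V] [DecidableEq V]

/-- The pairs of `F` inside `S`. -/
def ins (F : Set (Sym2 V)) (S : Finset V) : Set (Sym2 V) := {e | e ∈ F ∧ ∀ v ∈ e, v ∈ S}

/-- Sparse: every set `S` of at least two vertices spans at most `2|S| - 3` pairs. -/
def Sparse (F : Set (Sym2 V)) : Prop :=
  ∀ S : Finset V, 2 ≤ S.card → (ins F S).ncard + 3 ≤ 2 * S.card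

theorem ins_mono {F F' : Set (Sym2 V)} {S S' : Finset V} (h : F ⊆ F') (hS : S ⊆ S') :
    ins F S ⊆ ins F' S' := fun _ he => ⟨h he.1, fun v hv => hS (he.2 v hv)⟩

theorem Sparse.mono {F F' : Set (Sym2 V)} (h : Sparse F') (hF : F ⊆ F') : Sparse F := by
  intro S hS
  have := ncard_le_ncard (ins_mono hF (Finset.Subset.refl S)) (toFinite _)
  have := h S hS
  omega

theorem ins_inter_subset (F : Set (Sym2 V)) (S T : Finset V) :
    ins F S ∩ ins F T ⊆ ins F (S ∩ T) := by
  rintro e ⟨h1, h2⟩
  exact ⟨h1.1, fun v hv => Finset.mem_inter.2 ⟨h1.2 v hv, h2.2 v hv⟩⟩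

theorem ins_union_subset (F : Set (Sym2 V)) (S T : Finset V) :
    ins F S ∪ ins F T ⊆ ins F (S ∪ T) := by
  rintro e (h | h)
  · exact ⟨h.1, fun v hv => Finset.mem_union_left _ (h.2 v hv)⟩
  · exact ⟨h.1, fun v hv => Finset.mem_union_right _ (h.2 v hv)⟩

/-- Tight sets. -/
def TightOn (F : Set (Sym2 V)) (S : Finset V) : Prop :=
  2 ≤ S.card ∧ (ins F S).ncard + 3 = 2 * S.card

theorem tight_union {F : Set (Sym2 V)} (hF : Sparse F) {S T : Finset V} (hS : TightOn F S)
    (hT : TightOn F T) (h : 2 ≤ (S ∩ T).card) : TightOn F (S ∪ T) := by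
  have h1 := hF (S ∩ T) h
  have hcard : S.card ≤ (S ∪ T).card := Finset.card_le_card Finset.subset_union_left
  have h2 : 2 ≤ (S ∪ T).card := le_trans hS.1 hcard
  have h3 := hF (S ∪ T) h2
  have h4 := ncard_union_add_ncard_inter (ins F S) (ins F T) (toFinite _) (toFinite _)
  have h5 := ncard_le_ncard (ins_union_subset F S T) (toFinite _)
  have h6 := ncard_le_ncard (ins_inter_subset F S T) (toFinite _)
  have h7 := Finset.card_union_add_card_inter S T
  refine ⟨h2, ?_⟩
  have := hS.2
  have := hT.2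
  omega

theorem ins_disjoint {F : Set (Sym2 V)} (hd : ∀ c, s(c, c) ∉ F) {S T : Finset V}
    (h : (S ∩ T).card ≤ 1) : Disjoint (ins F S) (ins F T) := by
  rw [Set.disjoint_left]
  intro e h1 h2
  have h3 := ins_inter_subset F S T ⟨h1, h2⟩
  induction e using Sym2.ind with
  | _ a b =>
    have ha := h3.2 a (Sym2.mem_mk_left _ _)
    have hb := h3.2 b (Sym2.mem_mk_right _ _)
    have := Finset.card_le_one.1 h a ha b hb
    subst this
    exact hd _ h3.1

/-- There is no tight set containing the three neighbours of a vertex outside it. -/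
theorem no_tight_three {F : Set (Sym2 V)} (hF : Sparse F) {z u v w : V}
    (huv : u ≠ v) (huw : u ≠ w) (hvw : v ≠ w)
    (hu : s(z, u) ∈ F) (hv : s(z, v) ∈ F) (hw : s(z, w) ∈ F) {S : Finset V} (hz : z ∉ S)
    (hS : TightOn F S) (hus : u ∈ S) (hvs : v ∈ S) (hws : w ∈ S) : False := by
  have h1 : 2 ≤ (insert z S).card := by
    rw [Finset.card_insert_of_notMem hz]; have := hS.1; omega
  have h2 := hF (insert z S) h1
  have e1 : s(z, u) ∉ ins F S := fun h => hz (h.2 z (Sym2.mem_mk_left _ _))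
  have e2 : s(z, v) ∉ insert s(z, u) (ins F S) := by
    rintro (h | h)
    · rw [Sym2.eq_iff] at h
      rcases h with ⟨-, h⟩ | ⟨h, -⟩
      · exact huv h.symm
      · rw [h] at hz; exact hz hus
    · exact hz (h.2 z (Sym2.mem_mk_left _ _))
  have e3 : s(z, w) ∉ insert s(z, v) (insert s(z, u) (ins F S)) := by
    rintro (h | h | h)
    · rw [Sym2.eq_iff] at h
      rcases h with ⟨-, h⟩ | ⟨h, -⟩
      · exact hvw h.symm
      · rw [h] at hz; exact hz hvs
    · rw [Sym2.eq_iff] at h
      rcases h with ⟨-, h⟩ | ⟨h, -⟩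
      · exact huw h.symm
      · rw [h] at hz; exact hz hus
    · exact hz (h.2 z (Sym2.mem_mk_left _ _))
  have h3 : insert s(z, w) (insert s(z, v) (insert s(z, u) (ins F S))) ⊆ ins F (insert z S) := by
    have hmem : ∀ t, s(z, t) ∈ F → t ∈ S → s(z, t) ∈ ins F (insert z S) := by
      intro t ht htS
      refine ⟨ht, fun c hc => ?_⟩
      rw [Sym2.mem_iff] at hc
      rcases hc with rfl | rfl
      · exact Finset.mem_insert_self _ _
      · exact Finset.mem_insert_of_mem htS
    rintro e (rfl | rfl | rfl | he)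
    · exact hmem w hw hws
    · exact hmem v hv hvs
    · exact hmem u hu hus
    · exact ins_mono (Subset.refl F) (Finset.subset_insert z S) he
  have h4 := ncard_le_ncard h3 (toFinite _)
  rw [ncard_insert_of_notMem e3 (toFinite _), ncard_insert_of_notMem e2 (toFinite _),
    ncard_insert_of_notMem e1 (toFinite _)] at h4
  rw [Finset.card_insert_of_notMem hz] at h2
  have := hS.2
  omega

/-- Adding a pair to a sparse set keeps it sparse unless a tight set contains the pair. -/
theorem sparse_insert {F : Set (Sym2 V)} (hF : Sparse F) {u v : V}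
    (h : ∀ S : Finset V, u ∈ S → v ∈ S → ¬ TightOn F S) : Sparse (insert s(u, v) F) := by
  intro S hS
  have h1 := hF S hS
  by_cases huv : u ∈ S ∧ v ∈ S
  · have h2 := h S huv.1 huv.2
    have h3 : ins (insert s(u, v) F) S ⊆ insert s(u, v) (ins F S) := by
      rintro e ⟨he | he, he'⟩
      · exact Or.inl he
      · exact Or.inr ⟨he, he'⟩
    have h4 := ncard_le_ncard h3 (toFinite _)
    have h5 := ncard_insert_le s(u, v) (ins F S)
    have h6 : (ins F S).ncard + 3 ≠ 2 * S.card := fun h' => h2 ⟨hS, h'⟩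
    omega
  · have h3 : ins (insert s(u, v) F) S ⊆ ins F S := by
      rintro e ⟨he | he, he'⟩
      · exfalso; apply huv
        rw [he] at he'
        exact ⟨he' u (Sym2.mem_mk_left _ _), he' v (Sym2.mem_mk_right _ _)⟩
      · exact ⟨he, he'⟩
    have h4 := ncard_le_ncard h3 (toFinite _)
    omega

/-- Inverse 1-extension for sparse sets. -/
theorem exists_free_pair {F : Set (Sym2 V)} (hF : Sparse F) (hd : ∀ c, s(c, c) ∉ F) {z u v w : V}
    (huv : u ≠ v) (huw : u ≠ w) (hvw : v ≠ w)
    (hu : s(z, u) ∈ F) (hv : s(z, v) ∈ F) (hw : s(z, w) ∈ F) :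
    (∀ S : Finset V, z ∉ S → u ∈ S → v ∈ S → ¬ TightOn F S) ∨
    (∀ S : Finset V, z ∉ S → v ∈ S → w ∈ S → ¬ TightOn F S) ∨
    (∀ S : Finset V, z ∉ S → u ∈ S → w ∈ S → ¬ TightOn F S) := by
  by_contra hcon
  push Not at hcon
  obtain ⟨⟨S1, z1, u1, v1, t1⟩, ⟨S2, z2, v2, w2, t2⟩, ⟨S3, z3, u3, w3, t3⟩⟩ := hcon
  have c12 : (S1 ∩ S2).card ≤ 1 := by
    by_contra h
    exact no_tight_three hF huv huw hvw hu hv hw (S := S1 ∪ S2)
      (by rw [Finset.mem_union]; tauto) (tight_union hF t1 t2 (by omega))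
      (Finset.mem_union_left _ u1) (Finset.mem_union_left _ v1) (Finset.mem_union_right _ w2)
  have c13 : (S1 ∩ S3).card ≤ 1 := by
    by_contra h
    exact no_tight_three hF huv huw hvw hu hv hw (S := S1 ∪ S3)
      (by rw [Finset.mem_union]; tauto) (tight_union hF t1 t3 (by omega))
      (Finset.mem_union_left _ u1) (Finset.mem_union_left _ v1) (Finset.mem_union_right _ w3)
  have c23 : (S2 ∩ S3).card ≤ 1 := by
    by_contra h
    exact no_tight_three hF huv huw hvw hu hv hw (S := S2 ∪ S3)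
      (by rw [Finset.mem_union]; tauto) (tight_union hF t2 t3 (by omega))
      (Finset.mem_union_right _ u3) (Finset.mem_union_left _ v2) (Finset.mem_union_left _ w2)
  have d12 := ins_disjoint hd c12
  have d13 := ins_disjoint hd c13
  have d23 := ins_disjoint hd c23
  -- the union of the three sets
  have k1 : (ins F S1 ∪ ins F S2).ncard = (ins F S1).ncard + (ins F S2).ncard :=
    ncard_union_eq d12 (toFinite _) (toFinite _)
  have k2 : ((ins F S1 ∪ ins F S2) ∪ ins F S3).ncard
      = (ins F S1).ncard + (ins F S2).ncard + (ins F S3).ncard := by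
    rw [ncard_union_eq (Set.disjoint_union_left.2 ⟨d13, d23⟩) (toFinite _) (toFinite _), k1]
  have k3 : (ins F S1 ∪ ins F S2) ∪ ins F S3 ⊆ ins F ((S1 ∪ S2) ∪ S3) :=
    Subset.trans (union_subset_union_left _ (ins_union_subset F S1 S2)) (ins_union_subset F _ S3)
  have k4 := ncard_le_ncard k3 (toFinite _)
  have k5 := Finset.card_union_add_card_inter S1 S2
  have k6 := Finset.card_union_add_card_inter (S1 ∪ S2) S3
  have k7 : 1 ≤ (S1 ∩ S2).card := Finset.card_pos.2 ⟨v, Finset.mem_inter.2 ⟨v1, v2⟩⟩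
  have k8 : 2 ≤ ((S1 ∪ S2) ∩ S3).card := by
    have : ({u, w} : Finset V) ⊆ (S1 ∪ S2) ∩ S3 := by
      intro t ht
      rw [Finset.mem_insert, Finset.mem_singleton] at ht
      rw [Finset.mem_inter, Finset.mem_union]
      rcases ht with rfl | rfl
      · exact ⟨Or.inl u1, u3⟩
      · exact ⟨Or.inr w2, w3⟩
    calc 2 = ({u, w} : Finset V).card := (Finset.card_pair huw).symm
      _ ≤ _ := Finset.card_le_card this
  have k9 : 2 ≤ ((S1 ∪ S2) ∪ S3).card := by
    have : S1.card ≤ ((S1 ∪ S2) ∪ S3).card :=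
      Finset.card_le_card (Finset.Subset.trans Finset.subset_union_left Finset.subset_union_left)
    have := t1.1
    omega
  have k10 := hF _ k9
  have q1 := t1.2
  have q2 := t2.2
  have q3 := t3.2
  refine no_tight_three hF huv huw hvw hu hv hw (S := (S1 ∪ S2) ∪ S3) ?_ ⟨k9, ?_⟩ ?_ ?_ ?_
  · simp only [Finset.mem_union]; tauto
  · omega
  · exact Finset.mem_union_left _ (Finset.mem_union_left _ u1)
  · exact Finset.mem_union_left _ (Finset.mem_union_left _ v1)
  · exact Finset.mem_union_left _ (Finset.mem_union_right _ w2)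

end Pool.Agent.K1H50.ST
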